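import Pool.Agent.H904R2.Skel
import Pool.Agent.Helper667.RACell

set_option autoImplicit false

/-!
# Project RB (bridge for `S12755`, MP_103809_gt): definitions and statements

`X` is a CW complex of dimension at most two (Mathlib `Topology.CWComplex (Set.univ : Set X)`).
`S_*` below are the statements (all `Prop`s) of the parts of the proof.
-/

namespace Pool.Agent.W622.RB

open Topology CategoryTheory CategoryTheory.Limits Metric Set
open Pool.Agent.Helper922.HB.Sc (Sing sbd)
open Pool.Agent.H904R2 (Ch psh sk skA skC cellS sball)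

/-! ### singular homology through explicit chains -/

/-- every singular `m+1`-cycle bounds (`H_{m+1}(E; ℤ) = 0`) -/
def HZero (E : Type) [TopologicalSpace E] (m : ℕ) : Prop :=
  ∀ z : Ch E (m + 1), sbd E m z = 0 → ∃ y : Ch E (m + 2), sbd E (m + 1) y = z

/-- the condition of the frozen statement -/
def HF (E : Type) [TopologicalSpace E] (n : ℕ) : Prop :=
  IsZero (((AlgebraicTopology.singularHomologyFunctor (ModuleCat.{0} ℤ) n).obj
    (ModuleCat.of ℤ ℤ)).obj (TopCat.of E))

/-- RB-HOM -/
def S_hom : Prop := ∀ (E : Type) [TopologicalSpace E] (m : ℕ), HF E (m + 1) ↔ HZero E m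

/-- RB-SC1 : `H_1 = 0` for simply connected spaces -/
def S_sc1 : Prop := ∀ (E : Type) [TopologicalSpace E] [SimplyConnectedSpace E], HZero E 0

/-! ### cellular chains of a CW complex -/

section Cell

variable (E : Type) [TopologicalSpace E] [T2Space E] [CWComplex (Set.univ : Set E)]

/-- cellular chains -/
abbrev CC (k : ℕ) : Type := RelCWComplex.cell (Set.univ : Set E) k →₀ ℤ

/-- dimension at most two -/
def Dim2 : Prop := ∀ n : ℕ, 2 < n → IsEmpty (RelCWComplex.cell (Set.univ : Set E) n)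

variable {E}

/-- a cellular chain as a singular chain (sum of characteristic maps) -/
noncomputable def sC (k : ℕ) : CC E k →ₗ[ℤ] Ch E k := Finsupp.lmapDomain ℤ ℤ (cellS k)

/-- `b` is the cellular boundary of `c` : the boundary of the singular chain of `c` is homologous
to the singular chain of `b` in the union `sk E (k+1)` of the cells of dimension `≤ k` -/
def Rel (k : ℕ) (c : CC E (k + 1)) (b : CC E k) : Prop :=
  ∃ w ∈ skC (X := E) (k + 1) (k + 1), sbd E k (sC (k + 1) c) - sC k b = sbd E k w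

/-- sum of the coefficients -/
noncomputable def aug (a : CC E 0) : ℤ := a.sum fun _ n => n

end Cell

/-- RB-C1 -/
def S_c1 : Prop := ∀ (E : Type) [TopologicalSpace E] [T2Space E] [CWComplex (Set.univ : Set E)]
  (k : ℕ), k ≤ 1 → ∀ c : CC E (k + 1), ∃! b : CC E k, Rel k c b

/-- RB-C2 -/
def S_c2 : Prop := ∀ (E : Type) [TopologicalSpace E] [T2Space E] [CWComplex (Set.univ : Set E)],
  Dim2 E → (HZero E 1 ↔ ∀ c : CC E 2, Rel 1 c 0 → c = 0)

/-- RB-C3 -/
def S_c3 : Prop := ∀ (E : Type) [TopologicalSpace E] [T2Space E] [CWComplex (Set.univ : Set E)],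
  Dim2 E → (HZero E 0 ↔ ∀ b : CC E 1, Rel 0 b 0 → ∃ c : CC E 2, Rel 1 c b)

/-- RB-C4 -/
def S_c4 : Prop := ∀ (E : Type) [TopologicalSpace E] [T2Space E] [CWComplex (Set.univ : Set E)],
  Dim2 E → PathConnectedSpace E →
    (∀ a : CC E 0, aug a = 0 → ∃ b : CC E 1, Rel 0 b a) ∧
    (∀ (b : CC E 1) (a : CC E 0), Rel 0 b a → aug a = 0) ∧
    (∀ (c : CC E 2) (b : CC E 1), Rel 1 c b → Rel 0 b 0)

/-! ### CW structure on covers -/

/-- data of a CW structure as a proposition -/
structure IsCW {E : Type} [TopologicalSpace E] (cell : ℕ → Type)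
    (mp : ∀ n, cell n → PartialEquiv (Fin n → ℝ) E) : Prop where
  source_eq : ∀ n i, (mp n i).source = ball 0 1
  cont : ∀ n i, ContinuousOn (mp n i) (closedBall 0 1)
  cont_symm : ∀ n i, ContinuousOn (mp n i).symm (mp n i).target
  disj : (univ : Set (Σ n, cell n)).PairwiseDisjoint (fun ni => mp ni.1 ni.2 '' ball 0 1)
  bd : ∀ n i, ∃ I : Π m, Finset (cell m),
    MapsTo (mp n i) (sphere 0 1) (⋃ (m < n) (j ∈ I m), mp m j '' closedBall 0 1)
  closed : ∀ A : Set E, (∀ n j, IsClosed (A ∩ mp n j '' closedBall 0 1)) → IsClosed A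
  union : ⋃ (n : ℕ) (j : cell n), mp n j '' closedBall 0 1 = univ

/-- the CW complex -/
@[reducible] def IsCW.cw {E : Type} [TopologicalSpace E] {cell : ℕ → Type}
    {mp : ∀ n, cell n → PartialEquiv (Fin n → ℝ) E} (h : IsCW cell mp) :
    CWComplex (Set.univ : Set E) where
  cell := cell
  map := mp
  source_eq := h.source_eq
  continuousOn := h.cont
  continuousOn_symm := h.cont_symm
  pairwiseDisjoint' := h.disj
  mapsTo' := h.bd
  closed' A _ hA := h.closed A hA
  union' := h.union

section Cov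

variable {X E : Type} [TopologicalSpace X] [T2Space X] [CWComplex (Set.univ : Set X)]
  [TopologicalSpace E]

/-- `n`-cells of a cover: a cell of the base and a point over its centre -/
def CovCell (p : C(E, X)) (n : ℕ) : Type :=
  {q : RelCWComplex.cell (Set.univ : Set X) n × E // p q.2 = RelCWComplex.map n q.1 0}

/-- `f` is a lift of the characteristic map of `e` on the closed ball -/
def IsLift (p : C(E, X)) {n : ℕ} (e : RelCWComplex.cell (Set.univ : Set X) n)
    (f : (Fin n → ℝ) → E) : Prop :=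
  ContinuousOn f (closedBall 0 1) ∧ ∀ t ∈ closedBall (0 : Fin n → ℝ) 1,
    p (f t) = RelCWComplex.map n e t

end Cov

/-- RB-L1 : lifts of characteristic maps exist and are unique -/
def S_l1 : Prop := ∀ (X E : Type) [TopologicalSpace X] [T2Space X]
  [CWComplex (Set.univ : Set X)] [TopologicalSpace E] (p : C(E, X)), IsCoveringMap p →
  ∀ (n : ℕ) (e : RelCWComplex.cell (Set.univ : Set X) n),
    (∀ t₀ ∈ closedBall (0 : Fin n → ℝ) 1, ∀ y : E, p y = RelCWComplex.map n e t₀ →
      ∃ f, IsLift p e f ∧ f t₀ = y) ∧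
    (∀ f g, IsLift p e f → IsLift p e g → ∀ t₀ ∈ closedBall (0 : Fin n → ℝ) 1, f t₀ = g t₀ →
      EqOn f g (closedBall 0 1))

/-- RB-L2 : a compact subset of the cover meets only finitely many lifts of a closed cell -/
def S_l2 : Prop := ∀ (X E : Type) [TopologicalSpace X] [T2Space X]
  [CWComplex (Set.univ : Set X)] [TopologicalSpace E] (p : C(E, X)), IsCoveringMap p →
  ∀ (n : ℕ) (e : RelCWComplex.cell (Set.univ : Set X) n) (K : Set E), IsCompact K →
    {y : E | p y = RelCWComplex.map n e 0 ∧ ∃ f, IsLift p e f ∧ f 0 = y ∧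
      ∃ t ∈ closedBall (0 : Fin n → ℝ) 1, f t ∈ K}.Finite

/-- RB-L3 : the cover has the weak topology -/
def S_l3 : Prop := ∀ (X E : Type) [TopologicalSpace X] [T2Space X]
  [CWComplex (Set.univ : Set X)] [TopologicalSpace E] (p : C(E, X)), IsCoveringMap p →
  ∀ A : Set E, (∀ (n : ℕ) (e : RelCWComplex.cell (Set.univ : Set X) n) (f : (Fin n → ℝ) → E),
    IsLift p e f → IsClosed (A ∩ f '' closedBall 0 1)) → IsClosed A

/-- RB-L4 : the CW structure on a cover -/
def S_l4 : Prop := ∀ (X E : Type) [TopologicalSpace X] [T2Space X]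
  [CWComplex (Set.univ : Set X)] [TopologicalSpace E] (p : C(E, X)), IsCoveringMap p →
  T2Space E ∧ ∃ mp : ∀ n, CovCell p n → PartialEquiv (Fin n → ℝ) E, IsCW (CovCell p) mp ∧
    ∀ n (i : CovCell p n), IsLift p i.1.1 (mp n i) ∧ mp n i 0 = i.1.2

/-! ### existence of covers -/

/-- semilocally simply connected -/
def SLSC (X : Type) [TopologicalSpace X] : Prop :=
  ∀ x : X, ∃ V ∈ 𝓝 x, ∀ (y : X) (γ : Path y y), (∀ t, γ t ∈ V) → γ.Homotopic (Path.refl y)

/-- the subgroup of a pointed cover, as in the frozen statement -/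
noncomputable def img {X E : Type} [TopologicalSpace X] [TopologicalSpace E] (p : C(E, X))
    (e₀ : E) {x₀ : X} (γ : Path (p e₀) x₀) : Subgroup (FundamentalGroup X x₀) :=
  (FundamentalGroup.map p e₀).range.map
    (FundamentalGroup.fundamentalGroupMulEquivOfPath γ).toMonoidHom

/-- RB-EX : covers exist -/
def S_ex : Prop := ∀ (X : Type) [TopologicalSpace X] [PathConnectedSpace X]
  [LocallyPathConnectedSpace X], SLSC X → ∀ (x₀ : X) (P : Subgroup (FundamentalGroup X x₀)),
    ∃ (E : Type) (_ : TopologicalSpace E) (p : C(E, X)) (e₀ : E) (γ : Path (p e₀) x₀),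
      IsCoveringMap p ∧ PathConnectedSpace E ∧ P = img p e₀ γ

/-- RB-LPC -/
def S_lpc : Prop := ∀ (X : Type) [TopologicalSpace X] [T2Space X]
  [CWComplex (Set.univ : Set X)], LocallyPathConnectedSpace X

/-- RB-SLSC -/
def S_slsc : Prop := ∀ (X : Type) [TopologicalSpace X] [T2Space X]
  [CWComplex (Set.univ : Set X)], Dim2 X → SLSC X

/-- RB-UNI : the cover of the trivial subgroup is simply connected -/
def S_uni : Prop := ∀ (X E : Type) [TopologicalSpace X] [TopologicalSpace E] (p : C(E, X)),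
  IsCoveringMap p → PathConnectedSpace E → ∀ (e₀ : E) (x₀ : X) (γ : Path (p e₀) x₀),
    img p e₀ γ = ⊥ → SimplyConnectedSpace E

/-- RB-DECK : the deck transformations of the universal cover and the other regular covers -/
def S_deck : Prop := ∀ (X U : Type) [TopologicalSpace X] [TopologicalSpace U]
  [SimplyConnectedSpace U] [LocallyPathConnectedSpace U] (p : C(U, X)), IsCoveringMap p →
  Function.Surjective p → ∀ x₀ : X, ∃ _ : MulAction (FundamentalGroup X x₀) U,
    (∀ g : FundamentalGroup X x₀, Continuous (fun u : U => g • u)) ∧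
    (∀ (g : FundamentalGroup X x₀) (u : U), p (g • u) = p u) ∧
    (∀ (g : FundamentalGroup X x₀) (u : U), g • u = u → g = 1) ∧
    (∀ u u' : U, p u = p u' → ∃ g : FundamentalGroup X x₀, g • u = u') ∧
    (∀ (P : Subgroup (FundamentalGroup X x₀)), P.Normal → ∀ (E : Type) [TopologicalSpace E]
      (q : C(E, X)) (e₀ : E) (γ : Path (q e₀) x₀), IsCoveringMap q → PathConnectedSpace E →
      P = img q e₀ γ → ∃ π : C(U, E), (∀ u, q (π u) = p u) ∧ Function.Surjective π ∧
        ∀ u u' : U, π u = π u' ↔ ∃ g ∈ P, g • u = u')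

/-! ### semilocal simple connectedness of 2-complexes -/

/-- all loops in `V` are null-homotopic in `X` -/
def LoopsTriv {X : Type} [TopologicalSpace X] (V : Set X) : Prop :=
  ∀ (y : X) (γ : Path y y), (∀ t, γ t ∈ V) → γ.Homotopic (Path.refl y)

/-- RB-NH -/
def S_nh : Prop := ∀ (X : Type) [TopologicalSpace X] (V W : Set X) (R : C(V × unitInterval, X)),
  (∀ v : V, R (v, 0) = v) → (∀ v : V, R (v, 1) ∈ W) → LoopsTriv W → LoopsTriv V

/-- RB-BASE -/
def S_base : Prop := ∀ (X : Type) [TopologicalSpace X] [T2Space X]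
  [CWComplex (Set.univ : Set X)] (n : ℕ) (e : RelCWComplex.cell (Set.univ : Set X) n),
  (∃ O : Set X, IsOpen O ∧ O ∩ sk X (n + 1) = RelCWComplex.openCell n e) ∧
  ∃ R : C((RelCWComplex.openCell (C := (Set.univ : Set X)) n e) × unitInterval, X),
    (∀ v, R (v, 0) = v) ∧ ∀ v, R (v, 1) = RelCWComplex.map n e 0

/-- RB-STEP : `V = O ∩ sk X k` is relatively open in the union `sk X k` of the cells of dimension
`< k`; it is a deformation retract of a relatively open subset `V' = O' ∩ sk X (k+1)` -/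
def S_step : Prop := ∀ (X : Type) [TopologicalSpace X] [T2Space X]
  [CWComplex (Set.univ : Set X)] (k : ℕ) (O : Set X), IsOpen O →
  ∃ O' : Set X, IsOpen O' ∧ O ∩ sk X k ⊆ O' ∧
    ∃ R : C(↥(O' ∩ sk X (k + 1)) × unitInterval, X),
      (∀ v, R (v, 0) = v) ∧ ∀ v, R (v, 1) ∈ O ∩ sk X k

end Pool.Agent.W622.RB
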