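import Pool.Agent.W622.RB.Slsc

set_option autoImplicit false

/-! # RB-BASE: open cells -/

namespace Pool.Agent.W622.RB.Base

open Topology Metric Set
open scoped unitInterval
open Pool.Agent.H904R2 (sk)

variable {X : Type} [TopologicalSpace X] [T2Space X] [CWComplex (Set.univ : Set X)]

theorem openCell_sub (n : ℕ) (e : RelCWComplex.cell (Set.univ : Set X) n) :
    RelCWComplex.openCell n e ⊆ sk X (n + 1) :=
  (RelCWComplex.openCell_subset_closedCell n e).trans (Pool.Agent.H904R2.closedCell_sub n e)

theorem sk_mono {m n : ℕ} (h : m ≤ n) : sk X m ⊆ sk X n :=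
  RelCWComplex.skeletonLT_mono (by exact_mod_cast h)

theorem disj_sk' (m n : ℕ) (h : n ≤ m) (e : RelCWComplex.cell (Set.univ : Set X) m) :
    Disjoint (sk X n) (RelCWComplex.openCell m e) :=
  (Pool.Agent.H904R2.disj_sk m e).mono_left (sk_mono h)

theorem closedA (n : ℕ) (e : RelCWComplex.cell (Set.univ : Set X) n) :
    IsClosed (sk X (n + 1) \ RelCWComplex.openCell n e) := by
  apply CWComplex.isClosed_of_disjoint_openCell_or_isClosed_inter_closedCell (subset_univ _)
  intro m _ j
  by_cases hm : n + 1 ≤ m
  · left
    exact (disj_sk' m (n + 1) hm j).mono_left sdiff_subset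
  · push Not at hm
    by_cases hj : (⟨m, j⟩ : Σ n, RelCWComplex.cell (Set.univ : Set X) n) = ⟨n, e⟩
    · left
      obtain ⟨h1, h2⟩ := Sigma.mk.inj_iff.mp hj
      subst h1
      rw [eq_of_heq h2]
      exact disjoint_sdiff_left
    · right
      have h1 : (sk X (n + 1) \ RelCWComplex.openCell n e) ∩ RelCWComplex.closedCell m j =
          RelCWComplex.closedCell m j := by
        apply inter_eq_right.2
        intro x hx
        refine ⟨sk_mono (by omega) (Pool.Agent.H904R2.closedCell_sub m j hx), ?_⟩
        intro hxe
        rcases Pool.Agent.H904R2.closedCell_eq m j x hx with h | h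
        · exact Set.disjoint_left.1 (disj_sk' n m (by omega) e) h hxe
        · exact Set.disjoint_left.1 (RelCWComplex.disjoint_openCell_of_ne hj) h hxe
      rw [h1]
      exact RelCWComplex.isClosed_closedCell

theorem main : S_base := by
  intro X _ _ _ n e
  refine ⟨⟨(sk X (n + 1) \ RelCWComplex.openCell n e)ᶜ, (closedA n e).isOpen_compl, ?_⟩, ?_⟩
  · ext x
    constructor
    · rintro ⟨h1, h2⟩
      by_contra h
      exact h1 ⟨h2, h⟩
    · intro h
      exact ⟨fun h' => h'.2 h, openCell_sub n e h⟩
  · have htar : (RelCWComplex.map (C := (Set.univ : Set X)) n e).target =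
        RelCWComplex.openCell n e := by
      rw [← PartialEquiv.image_source_eq_target, RelCWComplex.source_eq]
      rfl
    have hmem : ∀ v : RelCWComplex.openCell (C := (Set.univ : Set X)) n e,
        (RelCWComplex.map (C := (Set.univ : Set X)) n e).symm v ∈ ball (0 : Fin n → ℝ) 1 := by
      intro v
      rw [← RelCWComplex.source_eq n e]
      apply PartialEquiv.map_target
      rw [htar]
      exact v.2
    have hc : Continuous (fun v : RelCWComplex.openCell (C := (Set.univ : Set X)) n e =>
        (RelCWComplex.map (C := (Set.univ : Set X)) n e).symm v) := by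
      have := RelCWComplex.continuousOn_symm (C := (Set.univ : Set X)) n e
      rw [htar, continuousOn_iff_continuous_domRestrict] at this
      exact this
    have hin : ∀ p : (RelCWComplex.openCell (C := (Set.univ : Set X)) n e) × unitInterval,
        (1 - (p.2 : ℝ)) • (RelCWComplex.map (C := (Set.univ : Set X)) n e).symm p.1 ∈
          closedBall (0 : Fin n → ℝ) 1 := by
      intro p
      rw [mem_closedBall_zero_iff, norm_smul]
      have h1 := hmem p.1
      rw [mem_ball_zero_iff] at h1
      have h2 : ‖1 - (p.2 : ℝ)‖ ≤ 1 := by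
        rw [Real.norm_eq_abs, abs_le]
        have := p.2.2.1
        have := p.2.2.2
        constructor <;> linarith
      calc _ ≤ 1 * 1 := mul_le_mul h2 h1.le (norm_nonneg _) zero_le_one
        _ = 1 := one_mul 1
    refine ⟨⟨fun p => RelCWComplex.map (C := (Set.univ : Set X)) n e
      ((1 - (p.2 : ℝ)) • (RelCWComplex.map (C := (Set.univ : Set X)) n e).symm p.1), ?_⟩, ?_, ?_⟩
    · refine (RelCWComplex.continuousOn (C := (Set.univ : Set X)) n e).comp_continuous ?_ hin
      exact ((continuous_const.sub (continuous_subtype_val.comp continuous_snd))).smul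
        (hc.comp continuous_fst)
    · intro v
      show RelCWComplex.map (C := (Set.univ : Set X)) n e
        ((1 - ((0 : unitInterval) : ℝ)) •
          (RelCWComplex.map (C := (Set.univ : Set X)) n e).symm v) = v
      rw [Set.Icc.coe_zero, sub_zero, one_smul]
      apply PartialEquiv.right_inv
      rw [htar]
      exact v.2
    · intro v
      show RelCWComplex.map (C := (Set.univ : Set X)) n e
        ((1 - ((1 : unitInterval) : ℝ)) •
          (RelCWComplex.map (C := (Set.univ : Set X)) n e).symm v) = _
      rw [Set.Icc.coe_one, sub_self, zero_smul]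

end Pool.Agent.W622.RB.Base
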