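import Pool.Agent.W622.RB.Defs

set_option autoImplicit false
set_option linter.unusedSectionVars false
set_option linter.style.haveILetI false

/-! # RB-EX: existence of covers with a prescribed subgroup -/

namespace Pool.Agent.W622.RB.Ex

open Topology Metric Set Path.Homotopic
open scoped unitInterval

/-- homotopy classes of paths -/
abbrev Q {X : Type} [TopologicalSpace X] (x y : X) : Type := Path.Homotopic.Quotient x y

variable {X : Type} [TopologicalSpace X]

theorem trans_assoc' {a b c d : X} (p : Q a b) (q : Q b c) (r : Q c d) :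
    (p.trans q).trans r = p.trans (q.trans r) := Path.Homotopic.Quotient.trans_assoc p q r

theorem symm_trans_cancel {a b c : X} (p : Q a b) (q : Q b c) :
    p.symm.trans (p.trans q) = q := by
  rw [← trans_assoc', Path.Homotopic.Quotient.symm_trans, Path.Homotopic.Quotient.refl_trans]

theorem trans_symm_cancel {a b c : X} (p : Q a b) (q : Q c b) :
    (p.trans q.symm).trans q = p := by
  rw [trans_assoc', Path.Homotopic.Quotient.symm_trans, Path.Homotopic.Quotient.trans_refl]

theorem trans_symm_cancel' {a b c : X} (p : Q a b) (q : Q b c) :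
    (p.trans q).trans q.symm = p := by
  rw [trans_assoc', Path.Homotopic.Quotient.trans_symm, Path.Homotopic.Quotient.trans_refl]

theorem symm_trans_rev {a b c : X} (p : Q a b) (q : Q b c) :
    (p.trans q).symm = q.symm.trans p.symm := by
  have h : (p.trans q).symm.trans (p.trans q) = (q.symm.trans p.symm).trans (p.trans q) := by
    rw [Path.Homotopic.Quotient.symm_trans, trans_assoc', symm_trans_cancel,
      Path.Homotopic.Quotient.symm_trans]
  have h2 := congrArg (fun z : Q c c => z.trans (p.trans q).symm) h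
  simp only [trans_symm_cancel'] at h2
  exact h2

/-- good neighbourhoods -/
structure Good (X : Type) [TopologicalSpace X] where
  V : X → Set X
  isOpen : ∀ i, IsOpen (V i)
  mem : ∀ i, i ∈ V i
  pc : ∀ i, IsPathConnected (V i)
  triv : ∀ i, LoopsTriv (V i)

theorem exists_good [LocallyPathConnectedSpace X] (h : SLSC X) : Nonempty (Good X) := by
  have key : ∀ i : X, ∃ V : Set X, IsOpen V ∧ i ∈ V ∧ IsPathConnected V ∧ LoopsTriv V := by
    intro i
    obtain ⟨V, hV, hl⟩ := h i
    obtain ⟨O, hOV, hO, hi⟩ := mem_nhds_iff.1 hV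
    refine ⟨pathComponentIn O i, hO.pathComponentIn i, mem_pathComponentIn_self hi,
      isPathConnected_pathComponentIn hi, ?_⟩
    intro y γ hγ
    exact hl y γ (fun t => hOV (pathComponentIn_subset (hγ t)))
  choose V h1 h2 h3 h4 using key
  exact ⟨⟨V, h1, h2, h3, h4⟩⟩

variable (D : Good X) [PathConnectedSpace X] (x₀ : X)

open Classical in
/-- the class of a path from the base point to `x` through the centre of the `i`-th set -/
noncomputable def c (i x : X) : Q x₀ x :=
  if h : x ∈ D.V i then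
    (Path.Homotopic.Quotient.mk (PathConnectedSpace.somePath x₀ i)).trans
      (Path.Homotopic.Quotient.mk ((D.pc i).joinedIn i (D.mem i) x h).somePath)
  else Path.Homotopic.Quotient.mk (PathConnectedSpace.somePath x₀ x)

theorem triv_eq {V : Set X} (hV : LoopsTriv V) {x y : X} (a b : Path x y) (ha : ∀ t, a t ∈ V)
    (hb : ∀ t, b t ∈ V) : (Path.Homotopic.Quotient.mk a : Q x y) = Path.Homotopic.Quotient.mk b := by
  have h := hV x (a.trans b.symm) (by
    intro t
    rw [Path.trans_apply]
    split_ifs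
    · exact ha _
    · exact hb _)
  have h2 : (Path.Homotopic.Quotient.mk (a.trans b.symm) : Q x x) = Path.Homotopic.Quotient.mk (Path.refl x) :=
    Path.Homotopic.Quotient.eq.2 h
  rw [Path.Homotopic.Quotient.mk_trans, Path.Homotopic.Quotient.mk_symm,
    Path.Homotopic.Quotient.mk_refl] at h2
  have h3 := congrArg (fun z : Q x x => z.trans (Path.Homotopic.Quotient.mk b)) h2
  simp only [trans_symm_cancel, Path.Homotopic.Quotient.refl_trans] at h3
  exact h3

theorem c_trans {i x y : X} (w : Path x y) (hw : ∀ t, w t ∈ D.V i) :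
    c D x₀ i y = (c D x₀ i x).trans (Path.Homotopic.Quotient.mk w) := by
  have hx : x ∈ D.V i := by have := hw 0; rwa [w.source] at this
  have hy : y ∈ D.V i := by have := hw 1; rwa [w.target] at this
  have e := triv_eq (D.triv i) ((D.pc i).joinedIn i (D.mem i) y hy).somePath
    (((D.pc i).joinedIn i (D.mem i) x hx).somePath.trans w)
    (fun t => ((D.pc i).joinedIn i (D.mem i) y hy).somePath_mem t) (by
      intro t
      rw [Path.trans_apply]
      split_ifs
      · exact ((D.pc i).joinedIn i (D.mem i) x hx).somePath_mem _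
      · exact hw _)
  rw [Path.Homotopic.Quotient.mk_trans] at e
  rw [c, dif_pos hy, c, dif_pos hx, trans_assoc', e]

/-- transition elements -/
noncomputable def g (i j x : X) : FundamentalGroup X x₀ :=
  (c D x₀ i x).trans (c D x₀ j x).symm

theorem g_self (i x : X) : g D x₀ i i x = 1 := by
  rw [g, Path.Homotopic.Quotient.trans_symm]
  rfl

theorem g_comp (i j k x : X) : g D x₀ j k x * g D x₀ i j x = g D x₀ i k x := by
  show Path.Homotopic.Quotient.trans (g D x₀ i j x) (g D x₀ j k x) = g D x₀ i k x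
  simp only [g]
  rw [trans_assoc', symm_trans_cancel]

variable [LocallyPathConnectedSpace X] (P : Subgroup (FundamentalGroup X x₀))

/-- the fibre -/
def F : Type := FundamentalGroup X x₀ ⧸ P

instance : TopologicalSpace (F x₀ P) := ⊥

instance : DiscreteTopology (F x₀ P) := ⟨rfl⟩

noncomputable instance : MulAction (FundamentalGroup X x₀) (F x₀ P) :=
  inferInstanceAs (MulAction (FundamentalGroup X x₀) (FundamentalGroup X x₀ ⧸ P))

/-- the class of an element -/
noncomputable def q (a : FundamentalGroup X x₀) : F x₀ P := (QuotientGroup.mk a : FundamentalGroup X x₀ ⧸ P)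

theorem smul_q (a b : FundamentalGroup X x₀) : a • q x₀ P b = q x₀ P (a * b) := rfl

theorem q_surj (v : F x₀ P) : ∃ a, q x₀ P a = v := QuotientGroup.mk_surjective v

theorem q_eq (a b : FundamentalGroup X x₀) : q x₀ P a = q x₀ P b ↔ a⁻¹ * b ∈ P :=
  QuotientGroup.eq

/-- the bundle core -/
noncomputable def Z : FiberBundleCore X X (F x₀ P) where
  baseSet := D.V
  isOpen_baseSet := D.isOpen
  indexAt := id
  mem_baseSet_at := D.mem
  coordChange i j x v := g D x₀ i j x • v
  coordChange_self i x _ v := by rw [g_self, one_smul]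
  continuousOn_coordChange i j := by
    rw [continuousOn_prod_of_discrete_right]
    intro v
    have hset : {a : X | (a, v) ∈ (D.V i ∩ D.V j) ×ˢ (univ : Set (F x₀ P))} = D.V i ∩ D.V j := by
      ext a
      simp
    rw [hset]
    have hopen : IsOpen (D.V i ∩ D.V j) := (D.isOpen i).inter (D.isOpen j)
    rw [hopen.continuousOn_iff]
    intro x hx
    have hW : pathComponentIn (D.V i ∩ D.V j) x ∈ 𝓝 x :=
      (hopen.pathComponentIn x).mem_nhds (mem_pathComponentIn_self hx)
    apply ContinuousAt.congr (f := fun _ => g D x₀ i j x • v) continuousAt_const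
    filter_upwards [hW] with y hy
    have hw := fun t => JoinedIn.somePath_mem hy t
    have h1 := c_trans D x₀ (JoinedIn.somePath hy) (fun t => (hw t).1)
    have h2 := c_trans D x₀ (JoinedIn.somePath hy) (fun t => (hw t).2)
    congr 1
    simp only [g]
    rw [h1, h2, symm_trans_rev, ← trans_assoc', trans_symm_cancel']
  coordChange_comp i j k x _ v := by rw [← mul_smul, g_comp]

/-- coordinate of a class in the `i`-th chart -/
noncomputable def κ (i x : X) (a : Q x₀ x) : F x₀ P := q x₀ P (a.trans (c D x₀ i x).symm)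

theorem g_κ (i j x : X) (a : Q x₀ x) : g D x₀ i j x • κ D x₀ P i x a = κ D x₀ P j x a := by
  rw [κ, smul_q, κ]
  congr 1
  show Path.Homotopic.Quotient.trans (a.trans (c D x₀ i x).symm) (g D x₀ i j x) = _
  rw [g, trans_assoc', symm_trans_cancel]

theorem κ_trans {i x y : X} (a : Q x₀ x) (w : Path x y) (hw : ∀ t, w t ∈ D.V i) :
    κ D x₀ P i y (a.trans (Path.Homotopic.Quotient.mk w)) = κ D x₀ P i x a := by
  rw [κ, κ, c_trans D x₀ w hw, symm_trans_rev, ← trans_assoc', trans_symm_cancel']

/-- the cover -/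
abbrev E : Type := (Z D x₀ P).TotalSpace

/-- the point of the cover given by a class -/
noncomputable def pt {x : X} (a : Q x₀ x) : E D x₀ P := ⟨x, κ D x₀ P x x a⟩

theorem pt_surj (e : E D x₀ P) : ∃ (x : X) (a : Q x₀ x), e = pt D x₀ P a := by
  obtain ⟨x, v⟩ := e
  obtain ⟨b, hb⟩ := q_surj x₀ P v
  refine ⟨x, Path.Homotopic.Quotient.trans b (c D x₀ x x), ?_⟩
  have : κ D x₀ P x x (Path.Homotopic.Quotient.trans b (c D x₀ x x)) = v := by
    rw [κ, trans_symm_cancel']
    exact hb
  rw [pt, this]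

/-- the projection -/
noncomputable def pr : C(E D x₀ P, X) := ⟨(Z D x₀ P).proj, (Z D x₀ P).continuous_proj⟩

theorem cov : IsCoveringMap (pr D x₀ P) :=
  FiberBundle.isCoveringMap (F := F x₀ P) (E := (Z D x₀ P).Fiber)

/-- the truncated class -/
noncomputable def tr {x : X} (γ : Path x₀ x) (t : I) : Q x₀ (γ t) :=
  (Path.Homotopic.Quotient.mk (γ.subpath 0 t)).cast γ.source.symm rfl

theorem cast_trans {a a' b d : X} (h : a' = a) (p : Q a b) (r : Q b d) :
    (p.cast h rfl).trans r = (p.trans r).cast h rfl := by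
  subst h
  simp

theorem tr_trans {x : X} (γ : Path x₀ x) (s t : I) :
    tr x₀ γ t = (tr x₀ γ s).trans (Path.Homotopic.Quotient.mk (γ.subpath s t)) := by
  rw [tr, tr, cast_trans]
  congr 1
  rw [← Path.Homotopic.Quotient.mk_trans]
  exact (Path.Homotopic.Quotient.eq.2 ⟨Path.Homotopy.subpathTransSubpath γ 0 s t⟩).symm

/-- the lift of a path -/
noncomputable def L {x : X} (γ : Path x₀ x) (t : I) : E D x₀ P := pt D x₀ P (tr x₀ γ t)

theorem L_cont {x : X} (γ : Path x₀ x) : Continuous (L D x₀ P γ) := by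
  rw [continuous_iff_continuousAt]
  intro t₀
  rw [FiberBundle.continuousAt_totalSpace (F := F x₀ P) (E := (Z D x₀ P).Fiber)]
  constructor
  · exact γ.continuous.continuousAt
  · have hN : γ ⁻¹' (D.V (γ t₀)) ∈ 𝓝 t₀ :=
      γ.continuous.continuousAt ((D.isOpen _).mem_nhds (D.mem _))
    have hI : ∀ᶠ t in 𝓝 t₀, uIcc t₀ t ⊆ γ ⁻¹' (D.V (γ t₀)) := by
      have h1 := Filter.Tendsto.uIcc (l := 𝓝 t₀) (f := fun _ : I => t₀) (g := fun t => t)
        (lb := 𝓝 t₀) tendsto_const_nhds Filter.tendsto_id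
      exact (Filter.tendsto_smallSets_iff.1 h1) _ hN
    have key : ∀ t, uIcc t₀ t ⊆ γ ⁻¹' (D.V (γ t₀)) →
        ((trivializationAt (F x₀ P) (Z D x₀ P).Fiber (L D x₀ P γ t₀).proj) (L D x₀ P γ t)).2 =
          κ D x₀ P (γ t₀) (γ t₀) (tr x₀ γ t₀) := by
      intro t ht
      show g D x₀ (γ t) (γ t₀) (γ t) • κ D x₀ P (γ t) (γ t) (tr x₀ γ t) = _
      rw [g_κ, tr_trans x₀ γ t₀ t]
      apply κ_trans
      intro s
      apply ht
      have h3 : (γ.subpath t₀ t) s ∈ range (γ.subpath t₀ t) := ⟨s, rfl⟩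
      have : Set.Icc.convexComb t₀ t s ∈ uIcc t₀ t := by
        rw [← Path.range_subpathAux]
        exact ⟨s, rfl⟩
      exact this
    apply ContinuousAt.congr (f := fun _ => κ D x₀ P (γ t₀) (γ t₀) (tr x₀ γ t₀)) continuousAt_const
    filter_upwards [hI] with t ht
    exact (key t ht).symm

theorem pt_cast {x y : X} (h : y = x) (a : Q x₀ y) (b : Q x₀ x) (hab : a = b.cast rfl h) :
    pt D x₀ P a = pt D x₀ P b := by
  subst h
  rw [hab]
  simp

/-- base point -/
noncomputable def b₀ : E D x₀ P := pt D x₀ P (Path.Homotopic.Quotient.refl x₀)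

theorem L_zero {x : X} (γ : Path x₀ x) : L D x₀ P γ 0 = b₀ D x₀ P := by
  apply pt_cast D x₀ P γ.source
  rw [tr, ← Path.Homotopic.Quotient.mk_refl, ← Path.Homotopic.Quotient.mk_cast,
    ← Path.Homotopic.Quotient.mk_cast]
  congr 1
  ext t
  simp

theorem L_one {x : X} (γ : Path x₀ x) :
    L D x₀ P γ 1 = pt D x₀ P (Path.Homotopic.Quotient.mk γ) := by
  apply pt_cast D x₀ P γ.target
  rw [tr, ← Path.Homotopic.Quotient.mk_cast, ← Path.Homotopic.Quotient.mk_cast,
    Path.subpath_zero_one]
  congr 1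

/-- the lift as a path -/
noncomputable def LP {x : X} (γ : Path x₀ x) :
    Path (b₀ D x₀ P) (pt D x₀ P (Path.Homotopic.Quotient.mk γ)) where
  toFun := L D x₀ P γ
  continuous_toFun := L_cont D x₀ P γ
  source' := L_zero D x₀ P γ
  target' := L_one D x₀ P γ

theorem pconn : PathConnectedSpace (E D x₀ P) := by
  have h : ∀ e : E D x₀ P, Joined (b₀ D x₀ P) e := by
    intro e
    obtain ⟨x, a, rfl⟩ := pt_surj D x₀ P e
    obtain ⟨γ, rfl⟩ := Path.Homotopic.Quotient.mk_surjective a
    exact ⟨LP D x₀ P γ⟩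
  exact ⟨⟨b₀ D x₀ P⟩, fun x y => (h x).symm.trans (h y)⟩

theorem pt_eq_base (a : FundamentalGroup X x₀) :
    pt D x₀ P (x := x₀) a = b₀ D x₀ P ↔ a ∈ P := by
  have h1 : pt D x₀ P (x := x₀) a = b₀ D x₀ P ↔
      κ D x₀ P x₀ x₀ a = κ D x₀ P x₀ x₀ (Path.Homotopic.Quotient.refl x₀) := by
    constructor
    · intro h
      have := Bundle.TotalSpace.mk.inj h
      exact eq_of_heq this.2
    · intro h
      rw [pt, h]
      rfl
  rw [h1, κ, κ, eq_comm, q_eq]
  have h2 : ∀ u v : FundamentalGroup X x₀,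
      u = (Path.Homotopic.Quotient.refl x₀).trans (c D x₀ x₀ x₀).symm →
      v = Path.Homotopic.Quotient.trans a (c D x₀ x₀ x₀).symm → u⁻¹ * v = a := by
    rintro _ _ rfl rfl
    show Path.Homotopic.Quotient.trans (Path.Homotopic.Quotient.trans a (c D x₀ x₀ x₀).symm)
      ((Path.Homotopic.Quotient.refl x₀).trans (c D x₀ x₀ x₀).symm).symm = a
    rw [Path.Homotopic.Quotient.refl_trans, trans_symm_cancel']
  exact iff_of_eq (congrArg (fun z => z ∈ P) (h2 _ _ rfl rfl))

theorem conj_refl (x : X) (a : FundamentalGroup X x) :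
    FundamentalGroup.fundamentalGroupMulEquivOfPath (Path.refl x) a = a := by
  have h : ((CategoryTheory.Groupoid.isoEquivHom (FundamentalGroupoid.mk x)
      (FundamentalGroupoid.mk x)).symm ⟦Path.refl x⟧) = CategoryTheory.Iso.refl _ := by
    ext
    rfl
  rw [FundamentalGroup.fundamentalGroupMulEquivOfPath, h]
  simp

theorem map_mk {E' : Type} [TopologicalSpace E'] (p : C(E', X)) (e₀ : E') (Γ : Path e₀ e₀) :
    FundamentalGroup.map p e₀ (Path.Homotopic.Quotient.mk Γ : Q e₀ e₀) =
      (Path.Homotopic.Quotient.mk (Γ.map p.continuous) : Q (p e₀) (p e₀)) := rfl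

theorem img_eq : P = img (pr D x₀ P) (b₀ D x₀ P) (x₀ := x₀) (Path.refl x₀) := by
  ext a
  unfold img
  rw [Subgroup.mem_map]
  constructor
  · intro ha
    obtain ⟨γ, hγ⟩ := Path.Homotopic.Quotient.mk_surjective (x₀ := x₀) (x₁ := x₀) a
    have h1 : pt D x₀ P (Path.Homotopic.Quotient.mk γ) = b₀ D x₀ P := by
      rw [hγ]
      exact (pt_eq_base D x₀ P a).2 ha
    refine ⟨a, ⟨(Path.Homotopic.Quotient.mk ((LP D x₀ P γ).cast rfl h1.symm) :
      Q (b₀ D x₀ P) (b₀ D x₀ P)), ?_⟩, conj_refl x₀ a⟩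
    rw [map_mk, ← hγ]
    rfl
  · rintro ⟨b, ⟨Γ', hb⟩, hab⟩
    have hab' : b = a := (conj_refl x₀ b).symm.trans hab
    subst hab'
    obtain ⟨Γ, rfl⟩ := Path.Homotopic.Quotient.mk_surjective Γ'
    have h2 : b = (Path.Homotopic.Quotient.mk (Γ.map (pr D x₀ P).continuous) : Q x₀ x₀) := by
      rw [← hb]
      exact map_mk _ _ Γ
    set γ : Path x₀ x₀ := Γ.map (pr D x₀ P).continuous with hγ
    have h3 : L D x₀ P γ = Γ := by
      apply (cov D x₀ P).eq_of_comp_eq (L_cont D x₀ P γ) Γ.continuous ?_ 0 ?_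
      · rfl
      · rw [L_zero, Γ.source]
    have h4 : pt D x₀ P (Path.Homotopic.Quotient.mk γ) = b₀ D x₀ P := by
      rw [← L_one, h3, Γ.target]
    rw [h2]
    exact (pt_eq_base D x₀ P _).1 h4

theorem main : S_ex := by
  intro X _ _ _ h x₀ P
  obtain ⟨D⟩ := exists_good h
  exact ⟨E D x₀ P, inferInstance, pr D x₀ P, b₀ D x₀ P, Path.refl x₀, cov D x₀ P,
    pconn D x₀ P, img_eq D x₀ P⟩

end Pool.Agent.W622.RB.Ex
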