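import Pool.Agent.W622.RB.Main

set_option autoImplicit false
set_option linter.style.haveILetI false

/-! # Project RB: the final assembly -/

namespace Pool.Agent.W622.RB

open Topology Metric Set CategoryTheory CategoryTheory.Limits
open Pool.Agent.H904R2 (Ch psh sk skA skC cellS sball sball_spec)
open H667RA (toCover coverBd ra CellularUniversalCover)

theorem exists_zero_cell {X : Type} [TopologicalSpace X] [T2Space X]
    [CWComplex (Set.univ : Set X)] [Nonempty X] :
    Nonempty (RelCWComplex.cell (Set.univ : Set X) 0) := by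
  classical
  have hex : ∃ n, Nonempty (RelCWComplex.cell (Set.univ : Set X) n) := by
    obtain ⟨n, e, _⟩ := mem_openCell (Classical.arbitrary X)
    exact ⟨n, ⟨e⟩⟩
  obtain ⟨e⟩ := Nat.find_spec hex
  by_cases h0 : Nat.find hex = 0
  · rw [h0] at e
    exact ⟨e⟩
  · exfalso
    set n := Nat.find hex with hn
    have hpos : 0 < n := Nat.pos_of_ne_zero h0
    have : Nonempty (Fin n) := ⟨⟨0, hpos⟩⟩
    have hs : (fun _ => 1 : Fin n → ℝ) ∈ sphere (0 : Fin n → ℝ) 1 := by
      rw [mem_sphere_zero_iff_norm]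
      simp
    have h1 : RelCWComplex.map n e (fun _ => 1) ∈
        RelCWComplex.skeletonLT (Set.univ : Set X) (n : ℕ∞) :=
      RelCWComplex.cellFrontier_subset_skeletonLT n e ⟨_, hs, rfl⟩
    rw [CWComplex.mem_skeletonLT_iff] at h1
    obtain ⟨m, hm, j, _⟩ := h1
    have hm' : m < n := by exact_mod_cast hm
    exact Nat.find_min hex hm' ⟨j⟩

theorem cover_surj {X U : Type} [TopologicalSpace X] [TopologicalSpace U] [PathConnectedSpace X]
    [Nonempty U] (p : C(U, X)) (hcov : IsCoveringMap p) : Function.Surjective p := by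
  intro x
  obtain ⟨u⟩ := ‹Nonempty U›
  let γ : Path (p u) x := PathConnectedSpace.somePath _ _
  refine ⟨hcov.liftPath γ.toContinuousMap u (by simp) 1, ?_⟩
  have := congrFun (hcov.liftPath_lifts γ.toContinuousMap u (by simp)) 1
  rw [Function.comp_apply] at this
  rw [this]
  exact γ.target

section

variable {X U E : Type} [TopologicalSpace X] [T2Space X] [CWComplex (Set.univ : Set X)]
  [TopologicalSpace U] [TopologicalSpace E] {p : C(U, X)} {q : C(E, X)}

/-- the map on cells -/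
def pushC (π : C(U, E)) (h : ∀ u, q (π u) = p u) (n : ℕ) (i : CovCell p n) : CovCell q n :=
  ⟨(i.1.1, π i.1.2), by rw [h]; exact i.2⟩

theorem cellMap_push (hl1 : S_l1) (hq : IsCoveringMap q) [T2Space U] [T2Space E]
    {mp : ∀ n, CovCell p n → PartialEquiv (Fin n → ℝ) U} (hcw : IsCW (CovCell p) mp)
    (hlift : ∀ n (i : CovCell p n), IsLift p i.1.1 (mp n i) ∧ mp n i 0 = i.1.2)
    {mq : ∀ n, CovCell q n → PartialEquiv (Fin n → ℝ) E} (hcwq : IsCW (CovCell q) mq)
    (hliftq : ∀ n (i : CovCell q n), IsLift q i.1.1 (mq n i) ∧ mq n i 0 = i.1.2)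
    (π : C(U, E)) (h : ∀ u, q (π u) = p u) :
    @CellMap U E _ hcw.cw _ hcwq.cw π (pushC π h) := by
  letI := hcw.cw
  letI := hcwq.cw
  constructor
  intro n i t ht
  have h1 : IsLift q i.1.1 (fun s => π (mp n i s)) := by
    refine ⟨π.continuous.comp_continuousOn (hlift n i).1.1, fun s hs => ?_⟩
    rw [h]
    exact (hlift n i).1.2 s hs
  have h2 := (hliftq n (pushC π h n i))
  have h3 := (hl1 X E q hq n i.1.1).2 _ _ h1 h2.1 0 (by simp) (by
    show π (mp n i 0) = _
    rw [(hlift n i).2, h2.2]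
    rfl)
  exact h3 ht

/-- the action on cells -/
@[instance_reducible] def actC {G : Type} [Group G] [MulAction G U] (hover : ∀ (g : G) (u : U), p (g • u) = p u)
    (n : ℕ) : MulAction G (CovCell p n) where
  smul g i := ⟨(i.1.1, g • i.1.2), by rw [hover]; exact i.2⟩
  one_smul i := Subtype.ext (Prod.ext rfl (one_smul G i.1.2))
  mul_smul g g' i := Subtype.ext (Prod.ext rfl (mul_smul g g' i.1.2))

end

/-- the frozen statement from the parts -/
theorem final (hhom : S_hom) (hsc : S_sc1) (h1 : S_c1) (h2 : S_c2) (h3 : S_c3) (h4 : S_c4)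
    (hl1 : S_l1) (hl4 : S_l4) (hex : S_ex) (hlpc : S_lpc) (hslsc : S_slsc) (huni : S_uni)
    (hdeck : S_deck) :
    ∀ (X : Type) [TopologicalSpace X] [T2Space X]
      [Topology.CWComplex (Set.univ : Set X)],
      (∀ n : ℕ, 2 < n → IsEmpty (Topology.RelCWComplex.cell (Set.univ : Set X) n)) →
      ConnectedSpace X →
      ∀ (x₀ : X) (S : Set (Subgroup (FundamentalGroup X x₀))),
        (∀ P : Subgroup (FundamentalGroup X x₀), P ∈ S ↔
          (P.Normal ∧
            ∃ (E : Type) (_ : TopologicalSpace E) (p : C(E, X)) (e₀ : E)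
              (γ : Path (p e₀) x₀),
              IsCoveringMap p ∧ PathConnectedSpace E ∧
              P = (FundamentalGroup.map p e₀).range.map
                    (FundamentalGroup.fundamentalGroupMulEquivOfPath γ).toMonoidHom ∧
              IsZero (((AlgebraicTopology.singularHomologyFunctor (ModuleCat.{0} ℤ) 1).obj
                    (ModuleCat.of ℤ ℤ)).obj (TopCat.of E)) ∧
              IsZero (((AlgebraicTopology.singularHomologyFunctor (ModuleCat.{0} ℤ) 2).obj
                    (ModuleCat.of ℤ ℤ)).obj (TopCat.of E)))) →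
        S.Nonempty →
        ∃ P ∈ S, ∀ Q ∈ S, Q ≤ P → Q = P := by
  intro X _ _ _ hdim hconn x₀ S hS hne
  haveI := hconn
  haveI : LocallyPathConnectedSpace X := hlpc X
  haveI : PathConnectedSpace X := pathConnectedSpace_iff_connectedSpace.2 hconn
  obtain ⟨U, tU, p, u₀, γ₀, hcov, hpc, himg⟩ := hex X (hslsc X hdim) x₀ ⊥
  haveI : SimplyConnectedSpace U := huni X U p hcov hpc u₀ x₀ γ₀ himg.symm
  obtain ⟨hT2, mp, hcw, hlift⟩ := hl4 X U p hcov
  haveI := hT2
  letI := hcw.cw
  haveI : LocallyPathConnectedSpace U := hlpc U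
  haveI : Nonempty U := ⟨u₀⟩
  obtain ⟨act, hcont, hover, hfree, htrans, hquot⟩ := hdeck X U p hcov (cover_surj p hcov) x₀
  letI actn : ∀ n, MulAction (FundamentalGroup X x₀)
    (RelCWComplex.cell (Set.univ : Set U) n) := fun n => actC hover n
  have hdU : Dim2 U := by
    intro n hn
    exact ⟨fun i => (hdim n hn).false i.1.1⟩
  have hact : CellAct U (FundamentalGroup X x₀) := by
    intro g
    exact ⟨⟨fun u => g • u, hcont g⟩, cellMap_push hl1 hcov hcw hlift hcw hlift _ (hover g)⟩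
  have hfreeC : ∀ n (g : FundamentalGroup X x₀) (c : RelCWComplex.cell (Set.univ : Set U) n),
      g • c = c → g = 1 := by
    intro n g c hc
    exact hfree g c.1.2 (congrArg (fun i : CovCell p n => i.1.2) hc)
  have huc := universal h1 h3 h4 hsc hdU hact hfreeC exists_zero_cell
  have hmem : ∀ P : Subgroup (FundamentalGroup X x₀), P.Normal → ∀ (E : Type)
      (_ : TopologicalSpace E) (q : C(E, X)) (e₀ : E) (γ : Path (q e₀) x₀), IsCoveringMap q →
      PathConnectedSpace E → P = img q e₀ γ → ((HF E 1 ∧ HF E 2) ↔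
        P ∈ ra (G := FundamentalGroup X x₀) (bdL h1 1 le_rfl : CC U 2 →ₗ[ℤ] CC U 1)
          (bdL h1 0 zero_le_one : CC U 1 →ₗ[ℤ] CC U 0)) := by
    intro P hP E _ q e₀ γ hq hE himgE
    haveI := hP
    obtain ⟨π, hπ, hπs, hπf⟩ := hquot P hP E q e₀ γ hq hE himgE
    obtain ⟨hT2E, mq, hcwq, hliftq⟩ := hl4 X E q hq
    haveI := hT2E
    letI := hcwq.cw
    have hdE : Dim2 E := by
      intro n hn
      exact ⟨fun i => (hdim n hn).false i.1.1⟩
    have key := acyc_iff h1 h2 h3 hact hdE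
      (cellMap_push hl1 hq hcw hlift hcwq hliftq π hπ) P (by
        rintro n ⟨⟨e, y⟩, hy⟩
        obtain ⟨u, rfl⟩ := hπs y
        exact ⟨⟨(e, u), by rw [← hπ]; exact hy⟩, rfl⟩) (by
        intro n i j
        constructor
        · intro h
          have ha : i.1.1 = j.1.1 := congrArg (fun i : CovCell q n => i.1.1) h
          have hb : π i.1.2 = π j.1.2 := congrArg (fun i : CovCell q n => i.1.2) h
          obtain ⟨g, hg, hgi⟩ := (hπf _ _).1 hb
          exact ⟨g, hg, Subtype.ext (Prod.ext ha hgi)⟩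
        · rintro ⟨g, hg, rfl⟩
          exact Subtype.ext (Prod.ext rfl ((hπf _ _).2 ⟨g, hg, rfl⟩)))
      huc.bd₁_bd₂
    rw [← key, ← hhom E 0, ← hhom E 1]
  have hiff : ∀ P : Subgroup (FundamentalGroup X x₀), P ∈ S ↔
      P ∈ ra (G := FundamentalGroup X x₀) (bdL h1 1 le_rfl : CC U 2 →ₗ[ℤ] CC U 1)
          (bdL h1 0 zero_le_one : CC U 1 →ₗ[ℤ] CC U 0) := by
    intro P
    rw [hS]
    constructor
    · rintro ⟨hP, E, tE, q, e₀, γ, hq, hE, himgE, ha, hb⟩
      exact (hmem P hP E tE q e₀ γ hq hE himgE).1 ⟨ha, hb⟩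
    · intro hPr
      have hP : P.Normal := hPr.1
      obtain ⟨E, tE, q, e₀, γ, hq, hE, himgE⟩ := hex X (hslsc X hdim) x₀ P
      obtain ⟨ha, hb⟩ := (hmem P hP E tE q e₀ γ hq hE himgE).2 hPr
      exact ⟨hP, E, tE, q, e₀, γ, hq, hE, himgE, ha, hb⟩
  obtain ⟨P₀, hP₀⟩ := hne
  obtain ⟨M, hM, hmin⟩ := H667RA.cellular_main huc P₀ ((hiff P₀).1 hP₀)
  refine ⟨M, (hiff M).2 hmin.1, fun Q hQ hQM => ?_⟩
  exact le_antisymm hQM (hmin.2 ((hiff Q).1 hQ) hQM)

end Pool.Agent.W622.RB
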