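import Pool.Agent.W622.RB.Defs

set_option autoImplicit false

/-! # RB-HOM: comparison of the explicit integral singular chains with Mathlib's singular homology -/

namespace Pool.Agent.W622.RB.Hom

open CategoryTheory AlgebraicTopology Simplicial Opposite Limits
open Pool.Agent.Helper922.HB.Sc (Sing sbd sface)
open Pool.Agent.H904R2 (Ch)
open Pool.Agent.H904R2.Sph (sbd_single)

noncomputable section

/-- coefficients -/
abbrev FF : ModuleCat.{0} ℤ := ModuleCat.of ℤ ℤ

/-- the singular set of a space -/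
abbrev SS (X : Type) [TopologicalSpace X] : SSet.{0} := TopCat.toSSet.obj (TopCat.of X)

/-- the singular chain complex -/
abbrev KK (X : Type) [TopologicalSpace X] : ChainComplex (ModuleCat.{0} ℤ) ℕ :=
  (SS X).chainComplex FF

/-- simplices of the singular set -/
def eqv (X : Type) [TopologicalSpace X] (n : ℕ) : Sing X n ≃ (SS X) _⦋n⦌ :=
  ((TopCat.of X).toSSetObjEquiv (op ⦋n⦌)).symm

/-- basis elements of the chain complex -/
def bas {X : Type} [TopologicalSpace X] {n : ℕ} (σ : Sing X n) : (KK X).X n :=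
  ((SS X).ιChainComplex (R := FF) (eqv X n σ)).hom (1 : ℤ)

/-- from explicit chains to Mathlib chains -/
def toC (X : Type) [TopologicalSpace X] (n : ℕ) : (Sing X n →₀ ℤ) →ₗ[ℤ] (KK X).X n :=
  Finsupp.linearCombination ℤ bas

theorem toC_single {X : Type} [TopologicalSpace X] {n : ℕ} (σ : Sing X n) :
    toC X n (Finsupp.single σ 1) = bas σ := by
  unfold toC
  rw [Finsupp.linearCombination_single]
  exact @one_smul ℤ ((KK X).X n) _ Module.toDistribMulAction.toMulAction (bas σ)

/-- from Mathlib chains to explicit chains -/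
def ofC (X : Type) [TopologicalSpace X] (n : ℕ) :
    (KK X).X n ⟶ ModuleCat.of ℤ (Sing X n →₀ ℤ) :=
  Sigma.desc (fun x => ModuleCat.ofHom (Finsupp.lsingle ((eqv X n).symm x)))

theorem ofC_toC {X : Type} [TopologicalSpace X] {n : ℕ} (c : Sing X n →₀ ℤ) :
    (ofC X n).hom (toC X n c) = c := by
  have h : (ofC X n).hom ∘ₗ (toC X n) = LinearMap.id := by
    refine Finsupp.lhom_ext' fun σ => LinearMap.ext_ring ?_
    simp only [LinearMap.comp_apply, Finsupp.lsingle_apply, LinearMap.id_apply]
    rw [toC_single, bas, ← ModuleCat.comp_apply]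
    have h2 : (SS X).ιChainComplex (R := FF) (eqv X n σ) ≫ ofC X n =
        ModuleCat.ofHom (Finsupp.lsingle ((eqv X n).symm (eqv X n σ))) := by
      exact Sigma.ι_desc _ _
    rw [h2, Equiv.symm_apply_apply]
    rfl
  exact LinearMap.congr_fun h c

theorem toC_injective {X : Type} [TopologicalSpace X] {n : ℕ} :
    Function.Injective (toC X n) :=
  Function.LeftInverse.injective ofC_toC

theorem toC_ofC {X : Type} [TopologicalSpace X] {n : ℕ} (y : (KK X).X n) :
    toC X n ((ofC X n).hom y) = y := by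
  have h : ofC X n ≫ ModuleCat.ofHom (toC X n) = 𝟙 _ := by
    refine SSet.chainComplex_hom_ext ?_
    intro x
    have h2 : (SS X).ιChainComplex (R := FF) x ≫ ofC X n =
        ModuleCat.ofHom (Finsupp.lsingle ((eqv X n).symm x)) := Sigma.ι_desc _ _
    rw [← Category.assoc, h2, Category.comp_id]
    apply ModuleCat.hom_ext
    refine LinearMap.ext_ring ?_
    show toC X n (Finsupp.lsingle ((eqv X n).symm x) (1 : ℤ)) = _
    rw [Finsupp.lsingle_apply, toC_single, bas, Equiv.apply_symm_apply]
  exact ConcreteCategory.congr_hom h y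

/-- the equivalence is compatible with faces -/
theorem eqv_face {X : Type} [TopologicalSpace X] {n : ℕ} (i : Fin (n + 2)) (σ : Sing X (n + 1)) :
    (SS X).δ i (eqv X (n + 1) σ) = eqv X n (sface n i σ) := by
  exact TopCat.toSSetObjEquiv_symm_naturality (X := TopCat.of X) (SimplexCategory.δ i) σ

theorem d_toC {X : Type} [TopologicalSpace X] {n : ℕ} (c : Sing X (n + 1) →₀ ℤ) :
    ((KK X).d (n + 1) n).hom (toC X (n + 1) c) = toC X n (sbd X n c) := by
  have h : ((KK X).d (n + 1) n).hom ∘ₗ toC X (n + 1) = toC X n ∘ₗ sbd X n := by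
    refine Finsupp.lhom_ext' fun σ => LinearMap.ext_ring ?_
    simp only [LinearMap.comp_apply, Finsupp.lsingle_apply]
    rw [toC_single, bas, sbd_single, map_sum, ← ModuleCat.comp_apply, SSet.ιChainComplex_d]
    change (ModuleCat.Hom.hom (∑ i : Fin (n + 2), ((-1 : ℤ) ^ i.val •
        (SS X).ιChainComplex (R := FF) ((SS X).δ i (eqv X (n + 1) σ))) :
          FF ⟶ (KK X).X n)) (1 : ℤ) = _
    rw [ModuleCat.hom_sum, LinearMap.sum_apply]
    refine Finset.sum_congr rfl fun i _ => ?_
    have h3 : (ModuleCat.Hom.hom ((SS X).ιChainComplex (R := FF)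
        ((SS X).δ i (eqv X (n + 1) σ)))) (1 : ℤ) = toC X n (Finsupp.single (sface n i σ) 1) := by
      rw [toC_single, eqv_face]
      rfl
    rcases neg_one_pow_eq_or ℤ i.val with h | h
    · rw [h, one_smul, one_smul]
      exact h3
    · rw [h, neg_smul, one_smul, neg_smul, one_smul, map_neg, ← h3]
      rfl
  exact LinearMap.congr_fun h c

theorem main : S_hom := by
  intro E _ m
  have h1 : HF E (m + 1) ↔ (KK E).ExactAt (m + 1) := by
    rw [HomologicalComplex.exactAt_iff_isZero_homology]
    exact Iff.rfl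
  have h2 : (KK E).ExactAt (m + 1) ↔ ∀ x : (KK E).X (m + 1), ((KK E).d (m + 1) m).hom x = 0 →
      ∃ y : (KK E).X (m + 2), ((KK E).d (m + 2) (m + 1)).hom y = x := by
    rw [HomologicalComplex.exactAt_iff' _ (m + 2) (m + 1) m (by simp) (by simp),
      ShortComplex.moduleCat_exact_iff]
    exact Iff.rfl
  rw [h1, h2]
  constructor
  · intro h z hz
    obtain ⟨y, hy⟩ := h (toC E (m + 1) z) (by rw [d_toC, hz, map_zero])
    refine ⟨(ofC E (m + 2)).hom y, ?_⟩
    apply toC_injective
    rw [← d_toC, toC_ofC]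
    exact hy
  · intro h x hx
    obtain ⟨y, hy⟩ := h ((ofC E (m + 1)).hom x) (by
      apply toC_injective
      rw [← d_toC, toC_ofC, hx, map_zero])
    refine ⟨toC E (m + 2) y, ?_⟩
    rw [d_toC, hy, toC_ofC]

end

end Pool.Agent.W622.RB.Hom
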