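import Pool.Agent.W622.RB.Ex

set_option autoImplicit false

/-! # RB-NH: homotopy of loops -/

namespace Pool.Agent.W622.RB.Nh

open Topology Metric Set
open scoped unitInterval
open Pool.Agent.W622.RB.Ex

theorem main : S_nh := by
  intro X _ V W R h0 h1 hW y γ hγ
  let f : C(V, X) := ⟨Subtype.val, continuous_subtype_val⟩
  let g : C(V, X) := ⟨fun v => R (v, 1), by fun_prop⟩
  let H : ContinuousMap.Homotopy f g :=
    { toFun := fun p => R (p.2, p.1)
      continuous_toFun := by fun_prop
      map_zero_left := fun v => h0 v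
      map_one_left := fun v => rfl }
  have hy : y ∈ V := by have := hγ 0; rwa [γ.source] at this
  let γV : Path (⟨y, hy⟩ : V) ⟨y, hy⟩ :=
    { toFun := fun t => ⟨γ t, hγ t⟩
      continuous_toFun := γ.continuous.subtype_mk _
      source' := Subtype.ext γ.source
      target' := Subtype.ext γ.target }
  have h2 : (γV.map g.continuous).Homotopic (Path.refl _) := hW _ _ (fun t => h1 _)
  have h3 := Path.Homotopic.map_trans_evalAt H γV
  have h4 := Path.Homotopic.Quotient.eq.2 h3
  rw [Path.Homotopic.Quotient.mk_trans, Path.Homotopic.Quotient.mk_trans,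
    Path.Homotopic.Quotient.eq.2 h2, Path.Homotopic.Quotient.mk_refl,
    Path.Homotopic.Quotient.trans_refl] at h4
  have h5 := congrArg (fun z => z.trans (Path.Homotopic.Quotient.mk (H.evalAt ⟨y, hy⟩)).symm) h4
  simp only [trans_symm_cancel', Path.Homotopic.Quotient.trans_symm] at h5
  apply Path.Homotopic.Quotient.eq.1
  rw [Path.Homotopic.Quotient.mk_refl]
  exact h5

end Pool.Agent.W622.RB.Nh
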