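import Pool.Agent.W622.RB.Base

set_option autoImplicit false
set_option linter.unusedSectionVars false

/-! # RB-STEP: relatively open subsets of a skeleton are deformation retracts -/

namespace Pool.Agent.W622.RB.Step

open Topology Metric Set
open scoped unitInterval
open Pool.Agent.H904R2 (sk)
open Pool.Agent.W622.RB.Base

variable {X : Type} [TopologicalSpace X] [T2Space X] [CWComplex (Set.univ : Set X)]
  (k : ℕ) (O : Set X)

/-- characteristic map -/
abbrev Φ {k : ℕ} (e : RelCWComplex.cell (Set.univ : Set X) k) : (Fin k → ℝ) → X :=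
  RelCWComplex.map (C := (Set.univ : Set X)) k e

/-- the cone over the part of the sphere mapped into `O` -/
def U (e : RelCWComplex.cell (Set.univ : Set X) k) : Set (Fin k → ℝ) :=
  {s | s ≠ 0 ∧ Φ e (‖s‖⁻¹ • s) ∈ O}

theorem norm_unit {k : ℕ} {s : Fin k → ℝ} (hs : s ≠ 0) : ‖s‖⁻¹ • s ∈ sphere (0 : Fin k → ℝ) 1 := by
  rw [mem_sphere_zero_iff_norm, norm_smul, norm_inv, norm_norm,
    inv_mul_cancel₀ (norm_ne_zero_iff.2 hs)]

theorem isOpen_U (hO : IsOpen O) (e : RelCWComplex.cell (Set.univ : Set X) k) :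
    IsOpen (U k O e) := by
  have h1 : ContinuousOn (fun s : Fin k → ℝ => Φ e (‖s‖⁻¹ • s)) {s | s ≠ 0} := by
    refine (RelCWComplex.continuousOn (C := (Set.univ : Set X)) k e).comp ?_ ?_
    · have h2 : ContinuousOn (fun s : Fin k → ℝ => ‖s‖⁻¹) {s | s ≠ 0} :=
        continuous_norm.continuousOn.inv₀ (fun s hs => norm_ne_zero_iff.2 hs)
      exact h2.smul continuousOn_id
    · intro s hs
      exact sphere_subset_closedBall (norm_unit hs)
  exact h1.isOpen_inter_preimage isOpen_ne hO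

/-- the neighbourhood in the next skeleton -/
def V' : Set X := (O ∩ sk X k) ∪ ⋃ e : RelCWComplex.cell (Set.univ : Set X) k,
  Φ e '' (closedBall 0 1 ∩ U k O e)

theorem sphere_sk (e : RelCWComplex.cell (Set.univ : Set X) k) {s : Fin k → ℝ}
    (hs : s ∈ sphere (0 : Fin k → ℝ) 1) : Φ e s ∈ sk X k :=
  RelCWComplex.cellFrontier_subset_skeletonLT k e ⟨s, hs, rfl⟩

theorem sphere_U (e : RelCWComplex.cell (Set.univ : Set X) k) {s : Fin k → ℝ}
    (hs : s ∈ sphere (0 : Fin k → ℝ) 1) : s ∈ U k O e ↔ Φ e s ∈ O := by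
  have h1 : ‖s‖ = 1 := mem_sphere_zero_iff_norm.1 hs
  have h0 : s ≠ 0 := by
    intro h
    rw [h, norm_zero] at h1
    exact zero_ne_one h1
  constructor
  · rintro ⟨_, h⟩
    rwa [h1, inv_one, one_smul] at h
  · intro h
    refine ⟨h0, ?_⟩
    rwa [h1, inv_one, one_smul]

theorem ball_or (s : Fin k → ℝ) (hs : s ∈ closedBall (0 : Fin k → ℝ) 1) :
    s ∈ ball (0 : Fin k → ℝ) 1 ∨ s ∈ sphere (0 : Fin k → ℝ) 1 := by
  rw [mem_closedBall] at hs
  rcases hs.lt_or_eq with h | h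
  · exact Or.inl h
  · exact Or.inr h

theorem ball_open (e : RelCWComplex.cell (Set.univ : Set X) k) {s : Fin k → ℝ}
    (hs : s ∈ ball (0 : Fin k → ℝ) 1) : Φ e s ∈ RelCWComplex.openCell k e := ⟨s, hs, rfl⟩

theorem ball_not_sk (e : RelCWComplex.cell (Set.univ : Set X) k) {s : Fin k → ℝ}
    (hs : s ∈ ball (0 : Fin k → ℝ) 1) : Φ e s ∉ sk X k := fun h =>
  Set.disjoint_left.1 (Pool.Agent.H904R2.disj_sk k e) h (ball_open k e hs)

/-- two points of closed balls with the same image -/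
theorem same (e e' : RelCWComplex.cell (Set.univ : Set X) k) {s s' : Fin k → ℝ}
    (hs : s ∈ closedBall (0 : Fin k → ℝ) 1) (hs' : s' ∈ closedBall (0 : Fin k → ℝ) 1)
    (h : Φ e s = Φ e' s') : (e = e' ∧ s = s') ∨
      (s ∈ sphere (0 : Fin k → ℝ) 1 ∧ s' ∈ sphere (0 : Fin k → ℝ) 1) := by
  rcases ball_or k s hs with h1 | h1
  · rcases ball_or k s' hs' with h2 | h2
    · left
      have he : e = e' := by
        by_contra hne
        have hne' : (⟨k, e⟩ : Σ n, RelCWComplex.cell (Set.univ : Set X) n) ≠ ⟨k, e'⟩ := by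
          intro heq
          exact hne (eq_of_heq (Sigma.mk.inj_iff.mp heq).2)
        refine Set.disjoint_left.1 (RelCWComplex.disjoint_openCell_of_ne hne') (ball_open k e h1) ?_
        rw [h]
        exact ball_open k e' h2
      subst he
      refine ⟨rfl, ?_⟩
      have hinj := (RelCWComplex.map (C := (Set.univ : Set X)) k e).injOn
      rw [RelCWComplex.source_eq] at hinj
      exact hinj h1 h2 h
    · exfalso
      apply ball_not_sk k e h1
      rw [h]
      exact sphere_sk k e' h2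
  · rcases ball_or k s' hs' with h2 | h2
    · exfalso
      apply ball_not_sk k e' h2
      rw [← h]
      exact sphere_sk k e h1
    · exact Or.inr ⟨h1, h2⟩

theorem sk_mem {x : X} (hx : x ∈ sk X k) : x ∈ V' k O ↔ x ∈ O := by
  constructor
  · rintro (h | h)
    · exact h.1
    · obtain ⟨e, s, ⟨hs, hU⟩, rfl⟩ := mem_iUnion.1 h
      rcases ball_or k s hs with h1 | h1
      · exact absurd hx (ball_not_sk k e h1)
      · exact (sphere_U k O e h1).1 hU
  · intro h
    exact Or.inl ⟨h, hx⟩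

theorem cell_mem (e : RelCWComplex.cell (Set.univ : Set X) k) {s : Fin k → ℝ}
    (hs : s ∈ closedBall (0 : Fin k → ℝ) 1) : Φ e s ∈ V' k O ↔ s ∈ U k O e := by
  constructor
  · rintro (h | h)
    · rcases ball_or k s hs with h1 | h1
      · exact absurd h.2 (ball_not_sk k e h1)
      · exact (sphere_U k O e h1).2 h.1
    · obtain ⟨e', s', ⟨hs', hU⟩, he⟩ := mem_iUnion.1 h
      rcases same k e' e hs' hs he with ⟨rfl, rfl⟩ | ⟨h1, h2⟩
      · exact hU
      · rw [sphere_U k O e h2, ← he]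
        exact (sphere_U k O e' h1).1 hU
  · intro h
    exact Or.inr (mem_iUnion.2 ⟨e, s, ⟨hs, h⟩, rfl⟩)

theorem V'_sub : V' k O ⊆ sk X (k + 1) := by
  rintro x (h | h)
  · exact Pool.Agent.H904R2.sk_mono_succ k h.2
  · obtain ⟨e, s, ⟨hs, _⟩, rfl⟩ := mem_iUnion.1 h
    exact Pool.Agent.H904R2.closedCell_sub k e ⟨s, hs, rfl⟩

/-- the closedness criterion -/
theorem closed_crit (hO : IsOpen O) (C : Set X) (hC : C ⊆ V' k O) (F : Set X) (hF : IsClosed F)
    (hCF : ∀ x ∈ O ∩ sk X k, x ∈ C ↔ x ∈ F)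
    (G : RelCWComplex.cell (Set.univ : Set X) k → Set (Fin k → ℝ)) (hG : ∀ e, IsClosed (G e))
    (hCG : ∀ e, ∀ s ∈ closedBall (0 : Fin k → ℝ) 1 ∩ U k O e, Φ e s ∈ C ↔ s ∈ G e) :
    IsClosed ((sk X (k + 1) \ V' k O) ∪ C) := by
  have hsk : ∀ x ∈ sk X k, x ∈ (sk X (k + 1) \ V' k O) ∪ C ↔ x ∈ Oᶜ ∪ F := by
    intro x hx
    by_cases hxO : x ∈ O
    · have h1 : x ∈ V' k O := (sk_mem k O hx).2 hxO
      constructor
      · rintro (h | h)
        · exact absurd h1 h.2
        · exact Or.inr ((hCF x ⟨hxO, hx⟩).1 h)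
      · rintro (h | h)
        · exact absurd hxO h
        · exact Or.inr ((hCF x ⟨hxO, hx⟩).2 h)
    · constructor
      · intro _
        exact Or.inl hxO
      · intro _
        exact Or.inl ⟨Pool.Agent.H904R2.sk_mono_succ k hx, fun h => hxO ((sk_mem k O hx).1 h)⟩
  have hcell : ∀ (e : RelCWComplex.cell (Set.univ : Set X) k),
      ∀ s ∈ closedBall (0 : Fin k → ℝ) 1,
      Φ e s ∈ (sk X (k + 1) \ V' k O) ∪ C ↔ s ∈ (U k O e)ᶜ ∪ G e := by
    intro e s hs
    by_cases hsU : s ∈ U k O e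
    · have h1 : Φ e s ∈ V' k O := (cell_mem k O e hs).2 hsU
      constructor
      · rintro (h | h)
        · exact absurd h1 h.2
        · exact Or.inr ((hCG e s ⟨hs, hsU⟩).1 h)
      · rintro (h | h)
        · exact absurd hsU h
        · exact Or.inr ((hCG e s ⟨hs, hsU⟩).2 h)
    · constructor
      · intro _
        exact Or.inl hsU
      · intro _
        refine Or.inl ⟨Pool.Agent.H904R2.closedCell_sub k e ⟨s, hs, rfl⟩, fun h => hsU ?_⟩
        exact (cell_mem k O e hs).1 h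
  apply CWComplex.isClosed_of_disjoint_openCell_or_isClosed_inter_closedCell (subset_univ _)
  intro m _ j
  rcases lt_trichotomy m k with hm | hm | hm
  · right
    have hsub : RelCWComplex.closedCell m j ⊆ sk X k :=
      (Pool.Agent.H904R2.closedCell_sub m j).trans (sk_mono hm)
    have h1 : ((sk X (k + 1) \ V' k O) ∪ C) ∩ RelCWComplex.closedCell m j =
        (Oᶜ ∪ F) ∩ RelCWComplex.closedCell m j := by
      ext x
      constructor
      · rintro ⟨h1, h2⟩
        exact ⟨(hsk x (hsub h2)).1 h1, h2⟩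
      · rintro ⟨h1, h2⟩
        exact ⟨(hsk x (hsub h2)).2 h1, h2⟩
    rw [h1]
    exact (hO.isClosed_compl.union hF).inter RelCWComplex.isClosed_closedCell
  · subst hm
    right
    have h1 : ((sk X (m + 1) \ V' m O) ∪ C) ∩ RelCWComplex.closedCell m j =
        Φ j '' (closedBall 0 1 ∩ ((U m O j)ᶜ ∪ G j)) := by
      ext x
      constructor
      · rintro ⟨h1, ⟨s, hs, rfl⟩⟩
        exact ⟨s, ⟨hs, (hcell j s hs).1 h1⟩, rfl⟩
      · rintro ⟨s, ⟨hs, h1⟩, rfl⟩
        exact ⟨(hcell j s hs).2 h1, ⟨s, hs, rfl⟩⟩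
    rw [h1]
    apply IsCompact.isClosed
    apply IsCompact.image_of_continuousOn
    · exact (isCompact_closedBall _ _).inter_right
        ((isOpen_U m O hO j).isClosed_compl.union (hG j))
    · exact (RelCWComplex.continuousOn (C := (Set.univ : Set X)) m j).mono inter_subset_left
  · left
    rw [Set.disjoint_left]
    intro x hx hxj
    have h2 : x ∈ sk X (k + 1) := by
      rcases hx with h | h
      · exact h.1
      · exact V'_sub k O (hC h)
    exact Set.disjoint_left.1 (disj_sk' m (k + 1) hm j) h2 hxj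

/-- the pieces -/
abbrev Y : Type := (↥(O ∩ sk X k)) ⊕
  (Σ e : RelCWComplex.cell (Set.univ : Set X) k, ↥(closedBall (0 : Fin k → ℝ) 1 ∩ U k O e))

/-- the covering of `V'` by the pieces -/
def φ : Y k O → V' k O
  | Sum.inl v => ⟨v.1, Or.inl v.2⟩
  | Sum.inr ⟨e, s⟩ => ⟨Φ e s.1, (cell_mem k O e s.2.1).2 s.2.2⟩

theorem φ_cont : Continuous (φ k O) := by
  rw [continuous_sum_dom]
  constructor
  · exact continuous_subtype_val.subtype_mk _
  · rw [continuous_sigma_iff]
    intro e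
    apply Continuous.subtype_mk
    have h1 := (RelCWComplex.continuousOn (C := (Set.univ : Set X)) k e)
    exact h1.comp_continuous continuous_subtype_val (fun s => s.2.1)

theorem φ_surj : Function.Surjective (φ k O) := by
  rintro ⟨x, (h | h)⟩
  · exact ⟨Sum.inl ⟨x, h⟩, rfl⟩
  · obtain ⟨e, s, hs, hx⟩ := mem_iUnion.1 h
    exact ⟨Sum.inr ⟨e, ⟨s, hs⟩⟩, Subtype.ext hx⟩

theorem φ_quot (hO : IsOpen O) : IsQuotientMap (φ k O) := by
  rw [isQuotientMap_iff_isClosed]
  refine ⟨φ_surj k O, fun C => ⟨fun h => h.preimage (φ_cont k O), fun h => ?_⟩⟩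
  rw [isClosed_sum_iff, isClosed_sigma_iff] at h
  obtain ⟨h1, h2⟩ := h
  obtain ⟨F, hF, hF'⟩ := isClosed_induced_iff.1 h1
  have h3 : ∀ e : RelCWComplex.cell (Set.univ : Set X) k, ∃ G : Set (Fin k → ℝ), IsClosed G ∧
      ∀ s : ↥(closedBall (0 : Fin k → ℝ) 1 ∩ U k O e), φ k O (Sum.inr ⟨e, s⟩) ∈ C ↔ s.1 ∈ G := by
    intro e
    obtain ⟨G, hG, hG'⟩ := isClosed_induced_iff.1 (h2 e)
    refine ⟨G, hG, fun s => ?_⟩
    have := congrArg (fun S => s ∈ S) hG'
    exact (iff_of_eq this).symm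
  choose G hG hG' using h3
  have key := closed_crit k O hO (Subtype.val '' C) (by
    rintro _ ⟨x, _, rfl⟩
    exact x.2) F hF (by
    rintro x ⟨hx1, hx2⟩
    have h4 : (⟨x, hx1, hx2⟩ : ↥(O ∩ sk X k)) ∈ Subtype.val ⁻¹' F ↔
      (⟨x, hx1, hx2⟩ : ↥(O ∩ sk X k)) ∈ (Sum.inl ⁻¹' (φ k O ⁻¹' C)) := by rw [hF']
    constructor
    · rintro ⟨y, hy, rfl⟩
      exact h4.2 hy
    · intro hxF
      exact ⟨_, h4.1 hxF, rfl⟩) G hG (by
    rintro e s hs
    constructor
    · rintro ⟨y, hy, hye⟩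
      rw [← hG' e ⟨s, hs⟩]
      have : φ k O (Sum.inr ⟨e, ⟨s, hs⟩⟩) = y := Subtype.ext hye.symm
      rw [this]
      exact hy
    · intro hsG
      exact ⟨_, (hG' e ⟨s, hs⟩).2 hsG, rfl⟩)
  have h5 : C = Subtype.val ⁻¹' ((sk X (k + 1) \ V' k O) ∪ Subtype.val '' C) := by
    ext x
    constructor
    · intro hx
      exact Or.inr ⟨x, hx, rfl⟩
    · rintro (h | ⟨y, hy, hyx⟩)
      · exact absurd x.2 h.2
      · rwa [← Subtype.ext hyx]
  rw [h5]
  exact key.preimage continuous_subtype_val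

/-- the homotopy on the pieces -/
noncomputable def rr : Y k O → unitInterval → X
  | Sum.inl v, _ => v.1
  | Sum.inr ⟨e, s⟩, t => Φ e (((1 - (t : ℝ)) + t * ‖s.1‖⁻¹) • s.1)

theorem scal_mem {s : Fin k → ℝ} (hs : s ∈ closedBall (0 : Fin k → ℝ) 1) (h0 : s ≠ 0)
    (t : unitInterval) : ((1 - (t : ℝ)) + t * ‖s‖⁻¹) • s ∈ closedBall (0 : Fin k → ℝ) 1 := by
  rw [mem_closedBall_zero_iff] at hs ⊢
  have hn : 0 < ‖s‖ := norm_pos_iff.2 h0
  have ht0 := t.2.1
  have ht1 := t.2.2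
  have hpos : 0 ≤ (1 - (t : ℝ)) + t * ‖s‖⁻¹ :=
    add_nonneg (by linarith) (mul_nonneg ht0 (inv_nonneg.2 hn.le))
  rw [norm_smul, Real.norm_of_nonneg hpos, add_mul, mul_assoc, inv_mul_cancel₀ hn.ne', mul_one]
  nlinarith

theorem rr_cont : Continuous (fun p : Y k O × unitInterval => rr k O p.1 p.2) := by
  let r1 : C((↥(O ∩ sk X k)) × unitInterval, X) :=
    ⟨fun p => p.1.1, continuous_subtype_val.comp continuous_fst⟩
  let r2 : ∀ e : RelCWComplex.cell (Set.univ : Set X) k,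
      C((↥(closedBall (0 : Fin k → ℝ) 1 ∩ U k O e)) × unitInterval, X) := fun e =>
    ⟨fun p => Φ e (((1 - (p.2 : ℝ)) + p.2 * ‖p.1.1‖⁻¹) • p.1.1), by
      refine (RelCWComplex.continuousOn (C := (Set.univ : Set X)) k e).comp_continuous ?_ ?_
      · have h1 : Continuous (fun p : (↥(closedBall (0 : Fin k → ℝ) 1 ∩ U k O e)) ×
            unitInterval => p.1.1) := continuous_subtype_val.comp continuous_fst
        have h2 : Continuous (fun p : (↥(closedBall (0 : Fin k → ℝ) 1 ∩ U k O e)) ×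
            unitInterval => (p.2 : ℝ)) := continuous_subtype_val.comp continuous_snd
        have h3 : Continuous (fun p : (↥(closedBall (0 : Fin k → ℝ) 1 ∩ U k O e)) ×
            unitInterval => ‖p.1.1‖⁻¹) :=
          h1.norm.inv₀ (fun p => norm_ne_zero_iff.2 p.1.2.2.1)
        exact ((continuous_const.sub h2).add (h2.mul h3)).smul h1
      · intro p
        exact scal_mem k p.1.2.1 p.1.2.2.1 p.2⟩
  let G : Y k O → C(unitInterval, X) := fun y => match y with
    | Sum.inl v => r1.curry v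
    | Sum.inr ⟨e, s⟩ => (r2 e).curry s
  have hG : Continuous G := by
    rw [continuous_sum_dom]
    constructor
    · exact r1.curry.continuous
    · rw [continuous_sigma_iff]
      intro e
      exact (r2 e).curry.continuous
  have h4 := ContinuousMap.continuous_uncurry_of_continuous ⟨G, hG⟩
  refine h4.congr ?_
  rintro ⟨(v | ⟨e, s⟩), t⟩
  · rfl
  · rfl

theorem rr_zero (y : Y k O) : rr k O y 0 = φ k O y := by
  rcases y with v | ⟨e, s⟩
  · rfl
  · show Φ e (((1 - ((0 : unitInterval) : ℝ)) + ((0 : unitInterval) : ℝ) * ‖s.1‖⁻¹) • s.1) = Φ e s.1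
    rw [Set.Icc.coe_zero, sub_zero, zero_mul, add_zero, one_smul]

theorem rr_one (y : Y k O) : rr k O y 1 ∈ O ∩ sk X k := by
  rcases y with v | ⟨e, s⟩
  · exact v.2
  · have h1 : rr k O (Sum.inr ⟨e, s⟩) 1 = Φ e (‖s.1‖⁻¹ • s.1) := by
      show Φ e (((1 - ((1 : unitInterval) : ℝ)) + ((1 : unitInterval) : ℝ) * ‖s.1‖⁻¹) • s.1) = _
      rw [Set.Icc.coe_one, sub_self, zero_add, one_mul]
    rw [h1]
    exact ⟨s.2.2.2, sphere_sk k e (norm_unit s.2.2.1)⟩

theorem rr_sphere (e : RelCWComplex.cell (Set.univ : Set X) k)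
    (s : ↥(closedBall (0 : Fin k → ℝ) 1 ∩ U k O e)) (hs : s.1 ∈ sphere (0 : Fin k → ℝ) 1)
    (t : unitInterval) : rr k O (Sum.inr ⟨e, s⟩) t = Φ e s.1 := by
  have h1 : ‖s.1‖ = 1 := mem_sphere_zero_iff_norm.1 hs
  show Φ e (((1 - (t : ℝ)) + t * ‖s.1‖⁻¹) • s.1) = Φ e s.1
  rw [h1, inv_one, mul_one, sub_add_cancel, one_smul]

theorem rr_compat (y y' : Y k O) (h : φ k O y = φ k O y') (t : unitInterval) :
    rr k O y t = rr k O y' t := by
  have aux : ∀ (v : ↥(O ∩ sk X k)) (e : RelCWComplex.cell (Set.univ : Set X) k)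
      (s : ↥(closedBall (0 : Fin k → ℝ) 1 ∩ U k O e)), v.1 = Φ e s.1 →
      rr k O (Sum.inr ⟨e, s⟩) t = v.1 := by
    intro v e s hv
    rcases ball_or k s.1 s.2.1 with h1 | h1
    · exact absurd (hv ▸ v.2.2) (ball_not_sk k e h1)
    · rw [rr_sphere k O e s h1, hv]
  have h' : (φ k O y).1 = (φ k O y').1 := congrArg Subtype.val h
  rcases y with v | ⟨e, s⟩
  · rcases y' with v' | ⟨e', s'⟩
    · exact h'
    · exact (aux v e' s' h').symm
  · rcases y' with v' | ⟨e', s'⟩
    · exact aux v' e s h'.symm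
    · have h2 : Φ e s.1 = Φ e' s'.1 := h'
      rcases same k e e' s.2.1 s'.2.1 h2 with ⟨h3, h4⟩ | ⟨h3, h4⟩
      · subst h3
        have : s = s' := Subtype.ext h4
        rw [this]
      · rw [rr_sphere k O e s h3, rr_sphere k O e' s' h4, h2]

theorem main : S_step := by
  intro X _ _ _ k O hO
  have hcl : IsClosed (sk X (k + 1) \ V' k O) := by
    have := closed_crit k O hO ∅ (empty_subset _) ∅ isClosed_empty (fun x _ => Iff.rfl)
      (fun _ => ∅) (fun _ => isClosed_empty) (fun _ _ _ => Iff.rfl)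
    rwa [union_empty] at this
  have hV : (sk X (k + 1) \ V' k O)ᶜ ∩ sk X (k + 1) = V' k O := by
    ext x
    constructor
    · rintro ⟨h1, h2⟩
      by_contra h
      exact h1 ⟨h2, h⟩
    · intro h
      exact ⟨fun h' => h'.2 h, V'_sub k O h⟩
  refine ⟨(sk X (k + 1) \ V' k O)ᶜ, hcl.isOpen_compl, ?_, ?_⟩
  · rintro x hx h
    exact h.2 (Or.inl hx)
  · rw [hV]
    let ψ : V' k O → Y k O := fun v => (φ_surj k O v).choose
    have hψ : ∀ v, φ k O (ψ v) = v := fun v => (φ_surj k O v).choose_spec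
    refine ⟨⟨fun p => rr k O (ψ p.1) p.2, ?_⟩, ?_, ?_⟩
    · apply (φ_quot k O hO).continuous_lift_prod_left
      refine (rr_cont k O).congr ?_
      rintro ⟨y, t⟩
      exact rr_compat k O _ _ (hψ _).symm t
    · intro v
      show rr k O (ψ v) 0 = v
      rw [rr_zero, hψ]
    · intro v
      exact rr_one k O _

end Pool.Agent.W622.RB.Step
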