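import Pool.Agent.W622.RB.Slsc

set_option autoImplicit false

/-! # Project RB: functoriality of the cellular boundary and the main assembly -/

namespace Pool.Agent.W622.RB

open Topology Metric Set
open Pool.Agent.Helper922.HB.Sc (Sing sbd)
open Pool.Agent.H904R2 (Ch psh sk skA skC cellS sball sball_spec)
open H667RA (toCover coverBd ra CellularUniversalCover)

section Push

variable {U E : Type} [TopologicalSpace U] [T2Space U] [CWComplex (Set.univ : Set U)]
  [TopologicalSpace E] [T2Space E] [CWComplex (Set.univ : Set E)]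

/-- a map sending characteristic maps to characteristic maps -/
structure CellMap (π : C(U, E)) (f : ∀ n, RelCWComplex.cell (Set.univ : Set U) n →
    RelCWComplex.cell (Set.univ : Set E) n) : Prop where
  eq : ∀ n i, ∀ t ∈ closedBall (0 : Fin n → ℝ) 1,
    π (RelCWComplex.map n i t) = RelCWComplex.map n (f n i) t

variable {π : C(U, E)} {f : ∀ n, RelCWComplex.cell (Set.univ : Set U) n →
    RelCWComplex.cell (Set.univ : Set E) n}

theorem sball_mem (k : ℕ) (t : stdSimplex ℝ (Fin (k + 1))) :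
    sball k t ∈ closedBall (0 : Fin k → ℝ) 1 := by
  rw [← (sball_spec k).2.1]
  exact ⟨t, rfl⟩

theorem CellMap.comp_cellS (h : CellMap π f) (k : ℕ)
    (i : RelCWComplex.cell (Set.univ : Set U) k) : π.comp (cellS k i) = cellS k (f k i) := by
  ext t
  exact h.eq k i _ (sball_mem k t)

theorem CellMap.map_sk (h : CellMap π f) (k : ℕ) {x : U} (hx : x ∈ sk U k) : π x ∈ sk E k := by
  have hx' : x ∈ RelCWComplex.skeletonLT (Set.univ : Set U) (k : ℕ∞) := hx
  rw [CWComplex.mem_skeletonLT_iff] at hx'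
  obtain ⟨m, hm, j, hj⟩ := hx'
  show π x ∈ RelCWComplex.skeletonLT (Set.univ : Set E) (k : ℕ∞)
  rw [CWComplex.mem_skeletonLT_iff]
  refine ⟨m, hm, f m j, ?_⟩
  obtain ⟨t, ht, rfl⟩ := hj
  exact ⟨t, ht, (h.eq m j t (ball_subset_closedBall ht)).symm⟩

theorem CellMap.psh_sC (h : CellMap π f) (k : ℕ) (c : CC U k) :
    psh π k (sC k c) = sC k (c.mapDomain (f k)) := by
  simp only [psh, sC, Finsupp.lmapDomain_apply]
  rw [← Finsupp.mapDomain_comp, ← Finsupp.mapDomain_comp]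
  congr 1
  ext1 i
  exact h.comp_cellS k i

theorem CellMap.psh_skC (h : CellMap π f) (k m : ℕ) (w : Ch U m) (hw : w ∈ skC (X := U) k m) :
    psh π m w ∈ skC (X := E) k m := by
  have : Pool.Agent.H904R2.skC (X := U) k m = Finsupp.supported ℤ ℤ
    {σ : Sing U m | Set.range σ ⊆ sk U k} := rfl
  rw [this] at hw
  show (Finsupp.lmapDomain ℤ ℤ (fun σ => π.comp σ)) w ∈ Finsupp.supported ℤ ℤ
    {σ : Sing E m | Set.range σ ⊆ sk E k}
  have h1 := Finsupp.lmapDomain_supported (M := ℤ) (R := ℤ) (fun σ : Sing U m => π.comp σ)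
    {σ : Sing U m | Set.range σ ⊆ sk U k}
  have h2 : (Finsupp.lmapDomain ℤ ℤ (fun σ : Sing U m => π.comp σ)) w ∈
      Finsupp.supported ℤ ℤ ((fun σ : Sing U m => π.comp σ) ''
        {σ : Sing U m | Set.range σ ⊆ sk U k}) := by
    rw [← h1]
    exact ⟨w, hw, rfl⟩
  refine Finsupp.supported_mono ?_ h2
  rintro _ ⟨σ, hσ, rfl⟩
  rintro _ ⟨t, rfl⟩
  exact h.map_sk k (hσ ⟨t, rfl⟩)

theorem CellMap.rel_push (h : CellMap π f) {k : ℕ} {c : CC U (k + 1)} {b : CC U k}
    (hr : Rel k c b) : Rel k (c.mapDomain (f (k + 1))) (b.mapDomain (f k)) := by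
  obtain ⟨w, hw, he⟩ := hr
  refine ⟨psh π (k + 1) w, h.psh_skC _ _ w hw, ?_⟩
  rw [← h.psh_sC, ← h.psh_sC, Pool.Agent.H904R2.Sph.sbd_psh, ← map_sub, he,
    ← Pool.Agent.H904R2.Sph.sbd_psh]

end Push

section Bd

variable {E : Type} [TopologicalSpace E] [T2Space E] [CWComplex (Set.univ : Set E)]

theorem rel_add {k : ℕ} {c c' : CC E (k + 1)} {b b' : CC E k} (h : Rel k c b) (h' : Rel k c' b') :
    Rel k (c + c') (b + b') := by
  obtain ⟨w, hw, he⟩ := h
  obtain ⟨w', hw', he'⟩ := h'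
  refine ⟨w + w', Submodule.add_mem _ hw hw', ?_⟩
  rw [map_add, map_add, map_add, map_add, ← he, ← he']
  abel

theorem rel_smul {k : ℕ} {c : CC E (k + 1)} {b : CC E k} (n : ℤ) (h : Rel k c b) :
    Rel k (n • c) (n • b) := by
  obtain ⟨w, hw, he⟩ := h
  refine ⟨n • w, Submodule.smul_mem _ n hw, ?_⟩
  rw [map_smul, map_smul, map_smul, map_smul, ← he, smul_sub]

/-- the cellular boundary -/
noncomputable def bdL (h1 : S_c1) (k : ℕ) (hk : k ≤ 1) : CC E (k + 1) →ₗ[ℤ] CC E k where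
  toFun c := (h1 E k hk c).choose
  map_add' c c' := by
    refine (h1 E k hk (c + c')).unique (h1 E k hk (c + c')).choose_spec.1 ?_
    exact rel_add (h1 E k hk c).choose_spec.1 (h1 E k hk c').choose_spec.1
  map_smul' n c := by
    refine (h1 E k hk (n • c)).unique (h1 E k hk (n • c)).choose_spec.1 ?_
    exact rel_smul n (h1 E k hk c).choose_spec.1

theorem bdL_spec (h1 : S_c1) (k : ℕ) (hk : k ≤ 1) (c : CC E (k + 1)) :
    Rel k c (bdL h1 k hk c) := (h1 E k hk c).choose_spec.1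

theorem bdL_iff (h1 : S_c1) (k : ℕ) (hk : k ≤ 1) (c : CC E (k + 1)) (b : CC E k) :
    Rel k c b ↔ bdL h1 k hk c = b := by
  constructor
  · intro h
    exact (h1 E k hk c).unique (bdL_spec h1 k hk c) h
  · rintro rfl
    exact bdL_spec h1 k hk c

end Bd

section Main

variable {U : Type} [TopologicalSpace U] [T2Space U] [CWComplex (Set.univ : Set U)]
  {G : Type} [Group G] [∀ n, MulAction G (RelCWComplex.cell (Set.univ : Set U) n)]

/-- `G` acts cellularly -/
def CellAct (U G : Type) [TopologicalSpace U] [T2Space U] [CWComplex (Set.univ : Set U)]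
    [Group G] [∀ n, MulAction G (RelCWComplex.cell (Set.univ : Set U) n)] : Prop :=
  ∀ g : G, ∃ π : C(U, U), CellMap π (fun _ i => g • i)

theorem bdL_equiv (h1 : S_c1) (hact : CellAct U G) (k : ℕ) (hk : k ≤ 1) (g : G)
    (z : CC U (k + 1)) :
    bdL h1 k hk (z.mapDomain (fun c => g • c)) = (bdL h1 k hk z).mapDomain (fun c => g • c) := by
  obtain ⟨π, hπ⟩ := hact g
  exact (bdL_iff h1 k hk _ _).1 (hπ.rel_push (bdL_spec h1 k hk z))

theorem universal (h1 : S_c1) (h3 : S_c3) (h4 : S_c4) (hsc : S_sc1) [SimplyConnectedSpace U]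
    (hd : Dim2 U) (hact : CellAct U G)
    (hfree : ∀ n (g : G) (c : RelCWComplex.cell (Set.univ : Set U) n), g • c = c → g = 1)
    (hne : Nonempty (RelCWComplex.cell (Set.univ : Set U) 0)) :
    CellularUniversalCover G (bdL h1 1 le_rfl : CC U 2 →ₗ[ℤ] CC U 1)
      (bdL h1 0 zero_le_one : CC U 1 →ₗ[ℤ] CC U 0) where
  free₀ := hfree 0
  free₁ := hfree 1
  free₂ := hfree 2
  equivariant₂ := bdL_equiv h1 hact 1 le_rfl
  equivariant₁ := bdL_equiv h1 hact 0 zero_le_one
  nonempty := hne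
  bd₁_bd₂ z := by
    rw [← bdL_iff]
    exact (h4 U hd inferInstance).2.2 z _ (bdL_spec h1 1 le_rfl z)
  augmentation_bd₁ z := (h4 U hd inferInstance).2.1 z _ (bdL_spec h1 0 zero_le_one z)
  connected z hz := by
    obtain ⟨b, hb⟩ := (h4 U hd inferInstance).1 z hz
    exact ⟨b, (bdL_iff h1 0 zero_le_one _ _).1 hb⟩
  simplyConnected z hz := by
    obtain ⟨c, hc⟩ := (h3 U hd).1 (hsc U) z ((bdL_iff h1 0 zero_le_one _ _).2 hz)
    exact ⟨c, (bdL_iff h1 1 le_rfl _ _).1 hc⟩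

variable {E : Type} [TopologicalSpace E] [T2Space E] [CWComplex (Set.univ : Set E)]
  {π : C(U, E)} {f : ∀ n, RelCWComplex.cell (Set.univ : Set U) n →
    RelCWComplex.cell (Set.univ : Set E) n}

theorem acyc_iff (h1 : S_c1) (h2 : S_c2) (h3 : S_c3) (hact : CellAct U G) (hdE : Dim2 E)
    (hπ : CellMap π f) (P : Subgroup G) [hP : P.Normal]
    (hsurj : ∀ n, Function.Surjective (f n))
    (hfib : ∀ n (i j : RelCWComplex.cell (Set.univ : Set U) n),
      f n i = f n j ↔ ∃ g ∈ P, g • i = j)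
    (hbb : ∀ z : CC U 2, bdL h1 0 zero_le_one (bdL h1 1 le_rfl z) = 0) :
    (HZero E 0 ∧ HZero E 1) ↔ P ∈ ra (G := G) (bdL h1 1 le_rfl : CC U 2 →ₗ[ℤ] CC U 1)
      (bdL h1 0 zero_le_one : CC U 1 →ₗ[ℤ] CC U 0) := by
  classical
  have hlift : ∀ n, ∀ i j : RelCWComplex.cell (Set.univ : Set U) n,
      (MulAction.orbitRel P _).r i j → f n i = f n j := by
    rintro n i j ⟨⟨g, hg⟩, hgj⟩
    exact ((hfib n j i).2 ⟨g, hg, hgj⟩).symm
  let J : ∀ n, MulAction.orbitRel.Quotient P (RelCWComplex.cell (Set.univ : Set U) n) →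
      RelCWComplex.cell (Set.univ : Set E) n := fun n => Quotient.lift (f n) (hlift n)
  have hJ : ∀ n, Function.Injective (J n) := by
    intro n a b hab
    obtain ⟨i, rfl⟩ := Quotient.exists_rep a
    obtain ⟨j, rfl⟩ := Quotient.exists_rep b
    obtain ⟨g, hg, hgi⟩ := (hfib n j i).1 hab.symm
    exact Quotient.sound ⟨⟨g, hg⟩, hgi⟩
  have hcov : ∀ n (z : CC U n), (toCover P _ z).mapDomain (J n) = z.mapDomain (f n) := by
    intro n z
    simp only [toCover, Finsupp.lmapDomain_apply]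
    rw [← Finsupp.mapDomain_comp]
    rfl
  have hzero : ∀ n (z : CC U n), z.mapDomain (f n) = 0 ↔ toCover P _ z = 0 := by
    intro n z
    rw [← hcov]
    exact H667RA.mapDomain_zero_iff (hJ n) _
  have heqv : ∀ n (z z' : CC U n), z.mapDomain (f n) = z'.mapDomain (f n) ↔
      toCover P _ z = toCover P _ z' := by
    intro n z z'
    rw [← hcov, ← hcov]
    exact ⟨fun h => Finsupp.mapDomain_injective (hJ n) h, fun h => by rw [h]⟩
  have hsurjC : ∀ n (c : CC E n), ∃ z : CC U n, z.mapDomain (f n) = c := fun n c =>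
    Finsupp.mapDomain_surjective (hsurj n) c
  have hbdE : ∀ k (hk : k ≤ 1) (z : CC U (k + 1)),
      bdL h1 k hk (z.mapDomain (f (k + 1))) = (bdL h1 k hk z).mapDomain (f k) := by
    intro k hk z
    exact (bdL_iff h1 k hk _ _).1 (hπ.rel_push (bdL_spec h1 k hk z))
  have hcb : ∀ k (hk : k ≤ 1) (z : CC U (k + 1)),
      coverBd P (bdL h1 k hk) (toCover P _ z) = toCover P _ (bdL h1 k hk z) := by
    intro k hk z
    exact H667RA.coverBd_toCover P _ (bdL_equiv h1 hact k hk) z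
  have hH2 : HZero E 1 ↔ LinearMap.ker (coverBd P (bdL h1 1 le_rfl : CC U 2 →ₗ[ℤ] CC U 1)) = ⊥ := by
    rw [h2 E hdE, LinearMap.ker_eq_bot']
    constructor
    · intro h w hw
      obtain ⟨z, rfl⟩ := H667RA.toCover_surj P w
      rw [hcb 1 le_rfl, ← hzero] at hw
      have h5 := h (z.mapDomain (f 2)) ((bdL_iff h1 1 le_rfl _ _).2 (by rw [hbdE 1 le_rfl]; exact hw))
      exact (hzero 2 z).1 h5
    · intro h c hc
      obtain ⟨z, rfl⟩ := hsurjC 2 c
      have h5 := (bdL_iff h1 1 le_rfl _ _).1 hc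
      rw [hbdE 1 le_rfl, hzero] at h5
      exact (hzero 2 z).2 (h _ (by rw [hcb 1 le_rfl]; exact h5))
  have hH1 : HZero E 0 ↔ LinearMap.ker (coverBd P (bdL h1 0 zero_le_one : CC U 1 →ₗ[ℤ] CC U 0)) =
      LinearMap.range (coverBd P (bdL h1 1 le_rfl : CC U 2 →ₗ[ℤ] CC U 1)) := by
    rw [h3 E hdE]
    constructor
    · intro h
      apply le_antisymm
      · intro w hw
        obtain ⟨z, rfl⟩ := H667RA.toCover_surj P w
        rw [LinearMap.mem_ker, hcb 0 zero_le_one, ← hzero] at hw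
        obtain ⟨c, hc⟩ := h (z.mapDomain (f 1))
          ((bdL_iff h1 0 zero_le_one _ _).2 (by rw [hbdE 0 zero_le_one]; exact hw))
        obtain ⟨y, rfl⟩ := hsurjC 2 c
        have h5 := (bdL_iff h1 1 le_rfl _ _).1 hc
        rw [hbdE 1 le_rfl, heqv] at h5
        exact ⟨toCover P _ y, by rw [hcb 1 le_rfl]; exact h5⟩
      · rintro _ ⟨w, rfl⟩
        obtain ⟨z, rfl⟩ := H667RA.toCover_surj P w
        rw [LinearMap.mem_ker, hcb 1 le_rfl, hcb 0 zero_le_one, hbb, map_zero]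
    · intro h b hb
      obtain ⟨z, rfl⟩ := hsurjC 1 b
      have h5 := (bdL_iff h1 0 zero_le_one _ _).1 hb
      rw [hbdE 0 zero_le_one, hzero] at h5
      have h6 : toCover P _ z ∈
          LinearMap.ker (coverBd P (bdL h1 0 zero_le_one : CC U 1 →ₗ[ℤ] CC U 0)) := by
        rw [LinearMap.mem_ker, hcb 0 zero_le_one]
        exact h5
      rw [h] at h6
      obtain ⟨w, hw⟩ := h6
      obtain ⟨y, rfl⟩ := H667RA.toCover_surj P w
      rw [hcb 1 le_rfl] at hw
      refine ⟨y.mapDomain (f 2), (bdL_iff h1 1 le_rfl _ _).2 ?_⟩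
      rw [hbdE 1 le_rfl, heqv]
      exact hw
  rw [hH1, hH2]
  constructor
  · rintro ⟨ha, hb⟩
    exact ⟨hP, hb, ha⟩
  · rintro ⟨_, hb, ha⟩
    exact ⟨ha, hb⟩

end Main

end Pool.Agent.W622.RB
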