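import Pool.Agent.W622.RB.Defs

set_option autoImplicit false

/-! # Project RB: semilocal simple connectedness from the parts -/

namespace Pool.Agent.W622.RB

open Topology Metric Set
open Pool.Agent.Helper922.HB.Sc (Sing sbd)
open Pool.Agent.H904R2 (Ch psh sk skA skC cellS sball)

theorem loopsTriv_singleton {X : Type} [TopologicalSpace X] (c : X) : LoopsTriv ({c} : Set X) := by
  intro y γ h
  have hy : y = c := by
    have := h 0
    rwa [γ.source] at this
  subst hy
  have : γ = Path.refl y := by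
    ext t
    exact h t
  rw [this]

theorem mem_openCell {X : Type} [TopologicalSpace X] [CWComplex (Set.univ : Set X)] (x : X) :
    ∃ (n : ℕ) (e : RelCWComplex.cell (Set.univ : Set X) n), x ∈ RelCWComplex.openCell n e := by
  have h : x ∈ ⋃ (n : ℕ) (j : RelCWComplex.cell (Set.univ : Set X) n),
      RelCWComplex.openCell n j := by
    have := CWComplex.iUnion_openCell_eq_complex (C := (Set.univ : Set X))
    rw [this]
    trivial
  simpa using h

theorem sk_eq_univ {X : Type} [TopologicalSpace X] [T2Space X] [CWComplex (Set.univ : Set X)]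
    (hd : Dim2 X) (k : ℕ) (hk : 2 < k) : sk X k = univ := by
  ext x
  simp only [mem_univ, iff_true]
  obtain ⟨n, e, hx⟩ := mem_openCell x
  have hn : n < k := by
    by_contra hlt
    exact (hd n (by omega)).false e
  have h1 := RelCWComplex.openCell_subset_skeletonLT n e hx
  have h2 : ((n : ℕ∞) + 1) ≤ (k : ℕ∞) := by exact_mod_cast hn
  exact RelCWComplex.skeletonLT_mono h2 h1

theorem slsc_of (hb : S_base) (hs : S_step) (hn : S_nh) : S_slsc := by
  intro X _ _ _ hd x
  obtain ⟨n, e, hx⟩ := mem_openCell x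
  have hn2 : n ≤ 2 := by
    by_contra hlt
    exact (hd n (by omega)).false e
  have key : ∀ k, n + 1 ≤ k → ∃ O : Set X, IsOpen O ∧ x ∈ O ∩ sk X k ∧ LoopsTriv (O ∩ sk X k) := by
    intro k hk
    induction k, hk using Nat.le_induction with
    | base =>
      obtain ⟨⟨O, hO, hOe⟩, R, hR0, hR1⟩ := hb X n e
      refine ⟨O, hO, by rw [hOe]; exact hx, ?_⟩
      rw [hOe]
      exact hn X _ {RelCWComplex.map n e 0} R hR0 (fun v => hR1 v) (loopsTriv_singleton _)
    | succ k hk ih =>
      obtain ⟨O, hO, hxO, hl⟩ := ih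
      obtain ⟨O', hO', hsub, R, hR0, hR1⟩ := hs X k O hO
      refine ⟨O', hO', ⟨hsub hxO, ?_⟩, ?_⟩
      · exact Pool.Agent.H904R2.sk_mono_succ k hxO.2
      · exact hn X _ _ R hR0 hR1 hl
  obtain ⟨O, hO, hxO, hl⟩ := key 3 (by omega)
  rw [sk_eq_univ hd 3 (by norm_num), inter_univ] at hl
  exact ⟨O, hO.mem_nhds hxO.1, hl⟩

end Pool.Agent.W622.RB
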